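import Mathlib

/-! # Abstract Cantorval `X` (adjoint Cantorval of the geometric sequence) : intervals and gaps -/

namespace Pool.R949.CD

/-- The facts about the adjoint Cantorval used in the whole proof. -/
structure CV (q R : ℝ) (X : Set ℝ) : Prop where
  q0 : 0 < q
  q1 : q < 1/2
  hR : R = q + q*R
  zero : (0:ℝ) ∈ X
  sub0 : ∀ x ∈ X, 0 ≤ x
  subR : ∀ x ∈ X, x ≤ R
  sym : ∀ x, x ∈ X → R - x ∈ X
  s1 : ∀ y, y < 1 → (q^2*y ∈ X ↔ y ∈ X)
  s2 : ∀ y, 0 ≤ y → y ≤ R → (q^2+q^2*y ∈ X ↔ y ∈ X)
  mid : ∀ x, q*R ≤ x → x ≤ q → x ∈ X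
  closed : IsClosed X

/-- `(a,b)` is a nondegenerate open interval inside `X`. -/
def Itv (X : Set ℝ) (a b : ℝ) : Prop := a < b ∧ ∀ x, a < x → x < b → x ∈ X

/-- distances set -/
def CDs (A : Set ℝ) : Set ℝ := {α | 0 ≤ α ∧ ∀ x ∈ A, ∃ y ∈ A, |x - y| = α}

theorem mem_CDs {A : Set ℝ} {α : ℝ} : α ∈ CDs A ↔ 0 ≤ α ∧ ∀ x ∈ A, x + α ∈ A ∨ x - α ∈ A := by
  constructor
  · rintro ⟨h0, h⟩
    refine ⟨h0, fun x hx => ?_⟩
    obtain ⟨y, hy, hxy⟩ := h x hx
    rcases abs_cases (x - y) with ⟨h1, _⟩ | ⟨h1, _⟩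
    · right
      have : x - α = y := by linarith
      rwa [this]
    · left
      have : x + α = y := by linarith
      rwa [this]
  · rintro ⟨h0, h⟩
    refine ⟨h0, fun x hx => ?_⟩
    rcases h x hx with h1 | h1
    · refine ⟨_, h1, ?_⟩
      rw [show x - (x + α) = -α by ring, abs_neg, abs_of_nonneg h0]
    · refine ⟨_, h1, ?_⟩
      rw [show x - (x - α) = α by ring, abs_of_nonneg h0]

namespace CV

variable {q R : ℝ} {X : Set ℝ}

theorem Rpos (h : CV q R X) : 0 < R := by
  have := h.hR; have := h.q0; have := h.q1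
  nlinarith

theorem qltR (h : CV q R X) : q < R := by
  have h1 := h.hR; have := h.q0; have := h.Rpos
  nlinarith [mul_pos this h.q0]

theorem R1 (h : CV q R X) : R < 1 := by
  have := h.hR; have := h.q0; have := h.q1; have := h.Rpos
  nlinarith

theorem R2q (h : CV q R X) : R < 2*q := by
  have := h.hR; have := h.q0; have := h.q1; have := h.Rpos
  nlinarith

theorem q2pos (h : CV q R X) : 0 < q^2 := by
  have := h.q0; positivity

theorem qne (h : CV q R X) : q ≠ 0 := h.q0.ne'

theorem e1 (h : CV q R X) : q*R = q^2 + q^2*R := by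
  linear_combination q*h.hR

theorem e2 (h : CV q R X) : R = q + q^2 + q^2*R := by
  linear_combination (1+q)*h.hR

theorem sym_iff (h : CV q R X) (x : ℝ) : R - x ∈ X ↔ x ∈ X := by
  constructor
  · intro hx
    have := h.sym _ hx
    rwa [sub_sub_cancel] at this
  · exact h.sym x

theorem Rmem (h : CV q R X) : R ∈ X := by
  have := h.sym 0 h.zero
  simpa using this

theorem s3 (h : CV q R X) (y : ℝ) (h0 : 0 ≤ y) (h1 : y < 1) : q + q^2*y ∈ X ↔ y ∈ X := by
  have hR := h.hR
  rw [← h.sym_iff]
  by_cases hy : y ≤ R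
  · have e : R - (q + q^2*y) = q^2 + q^2*(R - y) := by
      linear_combination (1+q)*hR
    rw [e, h.s2 (R - y) (by linarith) (by linarith), h.sym_iff]
  · push Not at hy
    have e : R - (q + q^2*y) = q^2*(R + 1 - y) := by
      linear_combination (1+q)*hR
    rw [e, h.s1 _ (by linarith)]
    constructor
    · intro hh
      have := h.subR _ hh
      linarith
    · intro hh
      have := h.subR _ hh
      linarith

theorem s4 (h : CV q R X) (y : ℝ) (h0 : 0 ≤ y) : q + q^2 + q^2*y ∈ X ↔ y ∈ X := by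
  have hR := h.hR
  rw [← h.sym_iff]
  have e : R - (q + q^2 + q^2*y) = q^2*(R - y) := by
    linear_combination (1+q)*hR
  rw [e, h.s1 _ (by linarith [h.R1]), h.sym_iff]

/-- the middle gap -/
theorem gap (h : CV q R X) (x : ℝ) (h1 : q^2*R < x) (h2 : x < q^2) : x ∉ X := by
  intro hx
  have hq := h.q2pos
  have hqn := h.qne
  have e : x = q^2*(x/q^2) := by field_simp
  rw [e, h.s1 _ (by rw [div_lt_one hq]; exact h2)] at hx
  have h3 := h.subR _ hx
  rw [div_le_iff₀ hq] at h3
  linarith

theorem gap2 (h : CV q R X) (x : ℝ) (h1 : q + q^2*R < x) (h2 : x < q + q^2) : x ∉ X := by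
  intro hx
  have hR := h.hR
  have he2 := h.e2
  have hx' := h.sym _ hx
  refine h.gap (R - x) ?_ ?_ hx'
  · linarith
  · linarith

theorem q2Rmem (h : CV q R X) : q^2*R ∈ X := (h.s1 R h.R1).2 h.Rmem
theorem q2mem (h : CV q R X) : q^2 ∈ X := by
  have := (h.s2 0 le_rfl h.Rpos.le).2 h.zero
  simpa using this
theorem qRle (h : CV q R X) : q*R < q := by
  have := h.R1; have := h.q0; nlinarith
theorem qRmem (h : CV q R X) : q*R ∈ X := h.mid _ le_rfl h.qRle.le
theorem qmem (h : CV q R X) : q ∈ X := h.mid _ h.qRle.le le_rfl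

/-- gaps accumulate at 0 -/
theorem noInit (h : CV q R X) (ε : ℝ) (hε : 0 < ε) : ∃ x, 0 < x ∧ x < ε ∧ x ∉ X := by
  have hq := h.q2pos
  have hR1 := h.R1
  have hRp := h.Rpos
  have hq1 : q^2 < 1 := by nlinarith [h.q0, h.q1]
  set g := q^2*((R+1)/2) with hg
  have g0 : 0 < g := by positivity
  have g1 : g < 1 := by nlinarith
  have key : ∀ n : ℕ, (q^2)^n * g ∉ X := by
    intro n
    induction n with
    | zero =>
      rw [pow_zero, one_mul]
      exact h.gap _ (by rw [hg]; nlinarith) (by rw [hg]; nlinarith)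
    | succ n ih =>
      have e : (q^2)^(n+1) * g = q^2 * ((q^2)^n*g) := by ring
      rw [e, h.s1]
      · exact ih
      · have : (q^2)^n ≤ 1 := pow_le_one₀ hq.le hq1.le
        nlinarith
  obtain ⟨n, hn⟩ := exists_pow_lt_of_lt_one (div_pos hε g0) hq1
  refine ⟨(q^2)^n*g, by positivity, ?_, key n⟩
  rwa [lt_div_iff₀ g0] at hn

theorem itv_pos (h : CV q R X) {a b : ℝ} (hI : Itv X a b) : 0 < a := by
  obtain ⟨hab, hI⟩ := hI
  by_contra hh
  push Not at hh
  rcases lt_or_ge 0 b with hb | hb
  · obtain ⟨x, x0, x1, hx⟩ := h.noInit b hb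
    exact hx (hI x (by linarith) x1)
  · have := h.sub0 _ (hI ((a+b)/2) (by linarith) (by linarith))
    linarith

theorem itv_sym (h : CV q R X) {a b : ℝ} (hI : Itv X a b) : Itv X (R-b) (R-a) := by
  obtain ⟨hab, hI⟩ := hI
  refine ⟨by linarith, fun x h1 h2 => ?_⟩
  rw [← h.sym_iff]
  exact hI _ (by linarith) (by linarith)

theorem itv_ltR (h : CV q R X) {a b : ℝ} (hI : Itv X a b) : b < R := by
  have := h.itv_pos (h.itv_sym hI)
  linarith

theorem no_cross_qR (h : CV q R X) {a b : ℝ} (hI : Itv X a b) (h1 : a < q*R) : b < q*R := by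
  by_contra hb
  push Not at hb
  obtain ⟨hab, hI⟩ := hI
  have hq := h.q2pos
  have hR := h.hR
  obtain ⟨z, z0, z1, hz⟩ := h.noInit (min ((q*R-a)/q^2) R) (lt_min (div_pos (by linarith) hq) h.Rpos)
  have z2 : z < (q*R-a)/q^2 := lt_of_lt_of_le z1 (min_le_left _ _)
  have z3 : z < R := lt_of_lt_of_le z1 (min_le_right _ _)
  rw [lt_div_iff₀ hq] at z2
  have hx := hI (q*R - q^2*z) (by linarith) (by nlinarith)
  have e : q*R - q^2*z = q^2 + q^2*(R - z) := by
    linear_combination q*hR
  rw [e, h.s2 _ (by linarith) (by linarith), h.sym_iff] at hx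
  exact hz hx

theorem no_cross_q (h : CV q R X) {a b : ℝ} (hI : Itv X a b) (h1 : a ≤ q) : b ≤ q := by
  by_contra hb
  push Not at hb
  have := h.no_cross_qR (h.itv_sym hI) (by nlinarith [h.hR])
  nlinarith [h.hR]

theorem itv_scale1 (h : CV q R X) {a b : ℝ} (hI : Itv X a b) (hb : b ≤ q^2) :
    Itv X (a/q^2) (b/q^2) := by
  have hq := h.q2pos
  obtain ⟨hab, hI⟩ := hI
  refine ⟨by gcongr, fun x h1 h2 => ?_⟩
  rw [div_lt_iff₀ hq] at h1
  rw [lt_div_iff₀ hq] at h2
  rw [← h.s1 x (by nlinarith)]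
  exact hI _ (by linarith) (by linarith)

theorem itv_scale2 (h : CV q R X) {a b : ℝ} (hI : Itv X a b) (ha : q^2 ≤ a) (hb : b ≤ q*R) :
    Itv X ((a-q^2)/q^2) ((b-q^2)/q^2) := by
  have hq := h.q2pos
  have hR := h.hR
  obtain ⟨hab, hI⟩ := hI
  refine ⟨by gcongr, fun x h1 h2 => ?_⟩
  rw [div_lt_iff₀ hq] at h1
  rw [lt_div_iff₀ hq] at h2
  have he1 := h.e1
  rw [← h.s2 x (le_of_mul_le_mul_left (by linarith : q^2*0 ≤ q^2*x) hq)
    (le_of_mul_le_mul_left (by linarith : q^2*x ≤ q^2*R) hq)]
  exact hI _ (by linarith) (by linarith)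

theorem itv_cases (h : CV q R X) {a b : ℝ} (hI : Itv X a b) :
    b ≤ q^2*R ∨ (q^2 ≤ a ∧ b ≤ q*R) ∨ (q*R ≤ a ∧ b ≤ q) ∨ q < a := by
  have hq := h.q2pos
  have hR := h.hR
  by_cases h1 : a < q*R
  · have h2 := h.no_cross_qR hI h1
    by_cases h3 : b ≤ q^2*R
    · left; exact h3
    · right; left
      refine ⟨?_, h2.le⟩
      by_contra h4
      push Not at h3 h4
      obtain ⟨hab, hI⟩ := hI
      have hm : max a (q^2*R) < min b (q^2) := by
        apply max_lt
        · exact lt_min hab h4
        · exact lt_min h3 (by nlinarith [h.R1])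
      obtain ⟨x, hx1, hx2⟩ := exists_between hm
      refine h.gap x (lt_of_le_of_lt (le_max_right _ _) hx1) (lt_of_lt_of_le hx2 (min_le_right _ _)) ?_
      exact hI x (lt_of_le_of_lt (le_max_left _ _) hx1) (lt_of_lt_of_le hx2 (min_le_left _ _))
  · push Not at h1
    by_cases h2 : a ≤ q
    · right; right; left
      exact ⟨h1, h.no_cross_q hI h2⟩
    · right; right; right
      linarith

/-- length bound (low part) used in the induction -/
theorem itv_len_aux (h : CV q R X) (n : ℕ) : ∀ a b, Itv X a b →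
    b - a ≤ q*(1-R) ∨ b - a ≤ (q^2)^n := by
  have hq := h.q2pos
  have hR := h.hR
  have hq0 := h.q0
  have hq1 := h.q1
  have hR1 := h.R1
  have hl : 0 < q*(1-R) := mul_pos hq0 (by linarith)
  induction n with
  | zero =>
    intro a b hI
    right
    have h1 := h.itv_pos hI
    have h2 := h.itv_ltR hI
    rw [pow_zero]; linarith
  | succ n ih =>
    have low : ∀ a b, Itv X a b → a < q*R → b - a ≤ q*(1-R) ∨ b - a ≤ (q^2)^(n+1) := by
      intro a b hI ha
      have h0 := h.no_cross_qR hI ha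
      have key : ∀ a' b' : ℝ, Itv X a' b' → b - a = q^2*(b'-a') → 
          b - a ≤ q*(1-R) ∨ b - a ≤ (q^2)^(n+1) := by
        intro a' b' h' e
        rcases ih a' b' h' with h1 | h1
        · left; rw [e]
          have : q^2*(b'-a') ≤ q^2*(q*(1-R)) := by gcongr
          nlinarith
        · right; rw [e, pow_succ (q^2) n, mul_comm ((q^2)^n)]
          exact mul_le_mul_of_nonneg_left h1 hq.le
      rcases h.itv_cases hI with h1 | ⟨h1, h2⟩ | ⟨h1, h2⟩ | h1
      · apply key _ _ (h.itv_scale1 hI (by nlinarith))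
        field_simp
      · apply key _ _ (h.itv_scale2 hI h1 h2)
        field_simp
        ring
      · linarith
      · nlinarith
    intro a b hI
    by_cases h1 : a < q*R
    · exact low a b hI h1
    · push Not at h1
      by_cases h2 : a ≤ q
      · left
        have := h.no_cross_q hI h2
        linarith
      · push Not at h2
        have h3 := low _ _ (h.itv_sym hI) (by have := hI.1; linarith)
        rw [show R - a - (R - b) = b - a by ring] at h3
        exact h3

theorem itv_len (h : CV q R X) {a b : ℝ} (hI : Itv X a b) : b - a ≤ q*(1-R) := by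
  have hq := h.q2pos
  have hq1 : q^2 < 1 := by nlinarith [h.q0, h.q1]
  have hab := hI.1
  obtain ⟨n, hn⟩ := exists_pow_lt_of_lt_one (sub_pos.2 hab) hq1
  rcases h.itv_len_aux n a b hI with h1 | h1
  · exact h1
  · linarith

/-- an interval in `X` is in the central component or short. -/
theorem itv_len2 (h : CV q R X) {a b : ℝ} (hI : Itv X a b) :
    (q*R ≤ a ∧ b ≤ q) ∨ b - a ≤ q^2*(q*(1-R)) := by
  have hq := h.q2pos
  have hqn := h.qne
  have hR := h.hR
  have low : ∀ a b, Itv X a b → a < q*R → b - a ≤ q^2*(q*(1-R)) := by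
    intro a b hI ha
    have h0 := h.no_cross_qR hI ha
    have key : ∀ a' b' : ℝ, Itv X a' b' → b - a = q^2*(b'-a') → b - a ≤ q^2*(q*(1-R)) := by
      intro a' b' h' e
      rw [e]
      have := h.itv_len h'
      gcongr
    rcases h.itv_cases hI with h1 | ⟨h1, h2⟩ | ⟨h1, h2⟩ | h1
    · apply key _ _ (h.itv_scale1 hI (by nlinarith [h.R1]))
      field_simp
    · apply key _ _ (h.itv_scale2 hI h1 h2)
      field_simp
      ring
    · linarith
    · nlinarith [h.qRle]
  by_cases h1 : a < q*R
  · right; exact low a b hI h1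
  · push Not at h1
    by_cases h2 : a ≤ q
    · left
      exact ⟨h1, h.no_cross_q hI h2⟩
    · right
      push Not at h2
      have h3 := low _ _ (h.itv_sym hI) (by have := hI.1; linarith)
      rw [show R - a - (R - b) = b - a by ring] at h3
      exact h3

/-- `X`-free open intervals inside `[0,R]` have length at most `q^2 (1-R)`. -/
theorem free_len_aux (h : CV q R X) (n : ℕ) : ∀ a b, 0 ≤ a → b ≤ R → a < b →
    (∀ x, a < x → x < b → x ∉ X) → b - a ≤ q^2*(1-R) ∨ b - a ≤ (q^2)^n := by
  have hq := h.q2pos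
  have hR := h.hR
  have hq0 := h.q0
  have hq1 := h.q1
  have hR1 := h.R1
  have hl : 0 < q^2*(1-R) := mul_pos hq (by linarith)
  induction n with
  | zero =>
    intro a b ha hb hab _
    right
    rw [pow_zero]; linarith
  | succ n ih =>
    have low : ∀ a b, 0 ≤ a → b ≤ q*R → a < b → (∀ x, a < x → x < b → x ∉ X) → 
        b - a ≤ q^2*(1-R) ∨ b - a ≤ (q^2)^(n+1) := by
      intro a b ha hb hab hf
      have key : ∀ a' b' : ℝ, 0 ≤ a' → b' ≤ R → a' < b' → (∀ x, a' < x → x < b' → x ∉ X) → 
          b - a = q^2*(b'-a') → b - a ≤ q^2*(1-R) ∨ b - a ≤ (q^2)^(n+1) := by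
        intro a' b' h1 h2 h3 h4 e
        rcases ih a' b' h1 h2 h3 h4 with h1 | h1
        · left; rw [e]
          have h5 : q^2*(b'-a') ≤ q^2*(q^2*(1-R)) := by gcongr
          have h6 : q^2 ≤ 1 := by nlinarith
          have h7 : q^2*(q^2*(1-R)) ≤ 1*(q^2*(1-R)) := mul_le_mul_of_nonneg_right h6 hl.le
          linarith
        · right; rw [e, pow_succ (q^2) n, mul_comm ((q^2)^n)]
          exact mul_le_mul_of_nonneg_left h1 hq.le
      by_cases c1 : b ≤ q^2*R
      · apply key (a/q^2) (b/q^2) (by positivity) _ (by gcongr)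
        · intro x h1 h2 hx
          rw [div_lt_iff₀ hq] at h1
          rw [lt_div_iff₀ hq] at h2
          rw [← h.s1 x (by nlinarith)] at hx
          exact hf _ (by linarith) (by linarith) hx
        · field_simp
        · rw [div_le_iff₀ hq]; linarith
      · push Not at c1
        have c2 : q^2*R ≤ a := by
          by_contra c3
          push Not at c3
          exact hf _ c3 c1 h.q2Rmem
        by_cases c4 : b ≤ q^2
        · left; linarith
        · push Not at c4
          have c5 : q^2 ≤ a := by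
            by_contra c3
            push Not at c3
            exact hf _ c3 c4 h.q2mem
          apply key ((a-q^2)/q^2) ((b-q^2)/q^2) (div_nonneg (by linarith) hq.le) _ (by gcongr)
          · intro x h1 h2 hx
            rw [div_lt_iff₀ hq] at h1
            rw [lt_div_iff₀ hq] at h2
            have he1 := h.e1
            rw [← h.s2 x (le_of_mul_le_mul_left (by linarith : q^2*0 ≤ q^2*x) hq)
              (le_of_mul_le_mul_left (by linarith : q^2*x ≤ q^2*R) hq)] at hx
            exact hf _ (by linarith) (by linarith) hx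
          · field_simp
            ring
          · rw [div_le_iff₀ hq]; nlinarith
    intro a b ha hb hab hf
    by_cases c1 : b ≤ q*R
    · exact low a b ha c1 hab hf
    · push Not at c1
      have c2 : q ≤ a := by
        by_contra c3
        push Not at c3
        have : max a (q*R) < min b q := by
          apply max_lt
          · exact lt_min hab c3
          · exact lt_min c1 h.qRle
        obtain ⟨x, hx1, hx2⟩ := exists_between this
        refine hf x (lt_of_le_of_lt (le_max_left _ _) hx1) (lt_of_lt_of_le hx2 (min_le_left _ _)) ?_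
        exact h.mid x (le_trans (le_max_right _ _) hx1.le) (le_trans hx2.le (min_le_right _ _))
      have h3 := low (R-b) (R-a) (by linarith) (by linarith) (by linarith) (by
        intro x h1 h2 hx
        exact hf (R-x) (by linarith) (by linarith) (h.sym _ hx))
      rw [show R - a - (R - b) = b - a by ring] at h3
      exact h3

theorem free_len (h : CV q R X) {a b : ℝ} (ha : 0 ≤ a) (hb : b ≤ R) (hab : a < b)
    (hf : ∀ x, a < x → x < b → x ∉ X) : b - a ≤ q^2*(1-R) := by
  have hq := h.q2pos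
  have hq1 : q^2 < 1 := by nlinarith [h.q0, h.q1]
  obtain ⟨n, hn⟩ := exists_pow_lt_of_lt_one (sub_pos.2 hab) hq1
  rcases h.free_len_aux n a b ha hb hab hf with h1 | h1
  · exact h1
  · linarith

/-- sharper form for free intervals in the left part. -/
theorem free_len2 (h : CV q R X) {a b : ℝ} (ha : 0 ≤ a) (hb : b ≤ q*R) (hab : a < b)
    (hf : ∀ x, a < x → x < b → x ∉ X) :
    (q^2*R ≤ a ∧ b ≤ q^2) ∨ ((b ≤ q^2*R ∨ q^2 ≤ a) ∧ b - a ≤ q^2*(q^2*(1-R))) := by
  have hq := h.q2pos
  have hR := h.hR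
  by_cases c1 : b ≤ q^2*R
  · right
    refine ⟨Or.inl c1, ?_⟩
    have h1 := h.free_len (a := a/q^2) (b := b/q^2) (by positivity) (by rw [div_le_iff₀ hq]; linarith) (by gcongr) (by
      intro x h1 h2 hx
      rw [div_lt_iff₀ hq] at h1
      rw [lt_div_iff₀ hq] at h2
      rw [← h.s1 x (by nlinarith [h.R1])] at hx
      exact hf _ (by linarith) (by linarith) hx)
    rw [← sub_div, div_le_iff₀ hq] at h1
    linarith
  · push Not at c1
    have c2 : q^2*R ≤ a := by
      by_contra c3
      push Not at c3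
      exact hf _ c3 c1 h.q2Rmem
    by_cases c4 : b ≤ q^2
    · left; exact ⟨c2, c4⟩
    · push Not at c4
      have c5 : q^2 ≤ a := by
        by_contra c3
        push Not at c3
        exact hf _ c3 c4 h.q2mem
      right
      refine ⟨Or.inr c5, ?_⟩
      have h1 := h.free_len (a := (a-q^2)/q^2) (b := (b-q^2)/q^2) (div_nonneg (by linarith) hq.le) (by rw [div_le_iff₀ hq]; nlinarith) (by gcongr) (by
        intro x h1 h2 hx
        rw [div_lt_iff₀ hq] at h1
        rw [lt_div_iff₀ hq] at h2
        have he1 := h.e1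
        rw [← h.s2 x (le_of_mul_le_mul_left (by linarith : q^2*0 ≤ q^2*x) hq)
          (le_of_mul_le_mul_left (by linarith : q^2*x ≤ q^2*R) hq)] at hx
        exact hf _ (by linarith) (by linarith) hx)
      rw [← sub_div, div_le_iff₀ hq] at h1
      linarith

end CV

end Pool.R949.CD
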