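import Pool.Agent.R949.CD.Steps4

/-! # The adjoint Cantorval of the geometric sequence -/

namespace Pool.R949.CD

open Finset

/-- sequences of zeros and ones -/
def Bin (ε : ℕ → ℝ) : Prop := ∀ i, ε i = 0 ∨ ε i = 1

/-- `r_m = q^{m+1}/(1-q)` -/
noncomputable def r (q : ℝ) (m : ℕ) : ℝ := q^(m+1)/(1-q)

/-- `s(ε₁…ε_m) = ∑_{i=1}^m ε_i q^i` (the letter `ε_{i+1}` is `ε i`) -/
noncomputable def s (q : ℝ) (ε : ℕ → ℝ) (m : ℕ) : ℝ := ∑ i ∈ range m, ε i * q^(i+1)

/-- the achievement set `E_q` -/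
def E (q : ℝ) : Set ℝ := {x | ∃ ε : ℕ → ℝ, Bin ε ∧ x = ∑' i, ε i * q^(i+1)}

/-- the union `G_m` of the gaps removed at step `m ≥ 1` -/
def G (q : ℝ) (m : ℕ) : Set ℝ :=
  {x | ∃ ε : ℕ → ℝ, Bin ε ∧ s q ε (m-1) + r q m < x ∧ x < s q ε (m-1) + q^m}

/-- the adjoint Cantorval -/
def Ehat (q : ℝ) : Set ℝ := E q ∪ ⋃ m ∈ {m : ℕ | Odd m}, G q m

/-- the companion (gaps of the even steps `≥ 2` are put back) -/
def Ehat1 (q : ℝ) : Set ℝ := E q ∪ ⋃ m ∈ {m : ℕ | Even m ∧ 2 ≤ m}, G q m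

section
variable {q : ℝ}

theorem summ (h0 : 0 < q) (h1 : q < 1/2) {ε : ℕ → ℝ} (hε : Bin ε) :
    Summable (fun i => ε i * q^(i+1)) := by
  have hg : Summable (fun i : ℕ => q^(i+1)) := by
    simpa [pow_succ] using (summable_geometric_of_lt_one h0.le (by linarith)).mul_right q
  refine Summable.of_nonneg_of_le (fun i => ?_) (fun i => ?_) hg
  · rcases hε i with h | h <;> rw [h] <;> positivity
  · rcases hε i with h | h <;> rw [h]
    · rw [zero_mul]; positivity
    · rw [one_mul]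

theorem geom (h0 : 0 < q) (h1 : q < 1/2) : ∑' i : ℕ, q^(i+1) = q/(1-q) := by
  have : ∑' i : ℕ, q^(i+1) = ∑' i : ℕ, q * q^i := by
    congr 1; ext i; ring
  rw [this, tsum_mul_left, tsum_geometric_of_lt_one h0.le (by linarith)]
  rfl

/-- splitting of the first digit -/
theorem split1 (h0 : 0 < q) (h1 : q < 1/2) {ε : ℕ → ℝ} (hε : Bin ε) :
    ∑' i, ε i * q^(i+1) = ε 0 * q + q * ∑' i, ε (i+1) * q^(i+1) := by
  rw [(summ h0 h1 hε).tsum_eq_zero_add, ← tsum_mul_left]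
  congr 1
  · simp
  · congr 1; ext i; ring

/-- prepend a digit -/
def cons (a : ℝ) (ε : ℕ → ℝ) : ℕ → ℝ := fun n => Nat.casesOn n a ε

theorem cons_bin {a : ℝ} (ha : a = 0 ∨ a = 1) {ε : ℕ → ℝ} (hε : Bin ε) : Bin (cons a ε) := by
  intro i
  cases i with
  | zero => exact ha
  | succ n => exact hε n

theorem E_cons (h0 : 0 < q) (h1 : q < 1/2) {a y : ℝ} (ha : a = 0 ∨ a = 1) (hy : y ∈ E q) :
    a * q + q * y ∈ E q := by
  obtain ⟨ε, hε, rfl⟩ := hy
  exact ⟨cons a ε, cons_bin ha hε, (split1 h0 h1 (cons_bin ha hε)).symm⟩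

theorem E_split (h0 : 0 < q) (h1 : q < 1/2) {x : ℝ} (hx : x ∈ E q) :
    ∃ a y, (a = 0 ∨ a = 1) ∧ y ∈ E q ∧ x = a*q + q*y := by
  obtain ⟨ε, hε, rfl⟩ := hx
  exact ⟨ε 0, _, hε 0, ⟨fun i => ε (i+1), fun i => hε (i+1), rfl⟩, split1 h0 h1 hε⟩

theorem s_succ (ε : ℕ → ℝ) (m : ℕ) : s q ε (m+1) = ε 0 * q + q * s q (fun i => ε (i+1)) m := by
  unfold s
  rw [sum_range_succ', mul_sum, add_comm]
  congr 1
  · simp
  · apply sum_congr rfl; intro i _; ring

theorem s_cons (a : ℝ) (ε : ℕ → ℝ) (m : ℕ) : s q (cons a ε) (m+1) = a * q + q * s q ε m := by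
  rw [s_succ]
  rfl

theorem r_succ (m : ℕ) : r q (m+1) = q * r q m := by
  unfold r
  rw [pow_succ]; ring

theorem G_cons (h0 : 0 < q) {a y : ℝ} (m : ℕ) (ha : a = 0 ∨ a = 1) (hy : y ∈ G q (m+1)) :
    a * q + q * y ∈ G q (m+2) := by
  obtain ⟨ε, hε, h2, h3⟩ := hy
  refine ⟨cons a ε, cons_bin ha hε, ?_, ?_⟩
  · simp only [Nat.add_sub_cancel, show m + 2 - 1 = m + 1 by omega, s_cons, r_succ (m+1)] at h2 ⊢
    nlinarith
  · simp only [Nat.add_sub_cancel, show m + 2 - 1 = m + 1 by omega, s_cons] at h3 ⊢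
    have : q*y < q*(s q ε m + q^(m+1)) := mul_lt_mul_of_pos_left h3 h0
    have e : q^(m+2) = q*q^(m+1) := by ring
    rw [e]; linarith

theorem G_split (h0 : 0 < q) {x : ℝ} (m : ℕ) (hx : x ∈ G q (m+2)) :
    ∃ a y, (a = 0 ∨ a = 1) ∧ y ∈ G q (m+1) ∧ x = a*q + q*y := by
  obtain ⟨ε, hε, h2, h3⟩ := hx
  simp only [show m + 2 - 1 = m + 1 by omega, s_succ, r_succ (m+1)] at h2 h3
  refine ⟨ε 0, (x - ε 0 * q)/q, hε 0, ⟨fun i => ε (i+1), fun i => hε (i+1), ?_, ?_⟩, by field_simp; ring⟩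
  · simp only [Nat.add_sub_cancel]
    rw [lt_div_iff₀ h0]; nlinarith
  · simp only [Nat.add_sub_cancel]
    rw [div_lt_iff₀ h0]
    have e : q^(m+2) = q*q^(m+1) := by ring
    rw [e] at h3; linarith

theorem E_zero : (0:ℝ) ∈ E q := ⟨fun _ => 0, fun _ => Or.inl rfl, by simp⟩

theorem E_R (h0 : 0 < q) (h1 : q < 1/2) : q/(1-q) ∈ E q :=
  ⟨fun _ => 1, fun _ => Or.inr rfl, by simp [geom h0 h1]⟩

theorem E_sub (h0 : 0 < q) (h1 : q < 1/2) {x : ℝ} (hx : x ∈ E q) : 0 ≤ x ∧ x ≤ q/(1-q) := by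
  obtain ⟨ε, hε, rfl⟩ := hx
  constructor
  · apply tsum_nonneg
    intro i
    rcases hε i with h | h <;> rw [h] <;> positivity
  · rw [← geom h0 h1]
    refine (summ h0 h1 hε).tsum_le_tsum (fun i => ?_) (by simpa using summ h0 h1 (ε := fun _ => 1) (fun _ => Or.inr rfl))
    rcases hε i with h | h <;> rw [h]
    · rw [zero_mul]; positivity
    · rw [one_mul]

theorem E_sym (h0 : 0 < q) (h1 : q < 1/2) {x : ℝ} (hx : x ∈ E q) : q/(1-q) - x ∈ E q := by
  obtain ⟨ε, hε, rfl⟩ := hx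
  refine ⟨fun i => 1 - ε i, fun i => ?_, ?_⟩
  · rcases hε i with h | h
    · right; simp [h]
    · left; simp [h]
  · rw [← geom h0 h1]
    have hs : Summable (fun i : ℕ => q^(i+1)) := by
      simpa using summ h0 h1 (ε := fun _ => 1) (fun _ => Or.inr rfl)
    rw [← hs.tsum_sub (summ h0 h1 hε)]
    congr 1; ext i; ring

theorem E_closed (h0 : 0 < q) (h1 : q < 1/2) : IsClosed (E q) := by
  have hK : IsCompact (Set.pi Set.univ (fun _ : ℕ => ({0, 1} : Set ℝ))) :=
    isCompact_univ_pi (fun _ => (Set.toFinite _).isCompact)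
  have hs : Summable (fun i : ℕ => q^(i+1)) := by
    simpa using summ h0 h1 (ε := fun _ => 1) (fun _ => Or.inr rfl)
  have hf : ContinuousOn (fun ε : ℕ → ℝ => ∑' i, ε i * q^(i+1))
      (Set.pi Set.univ (fun _ : ℕ => ({0, 1} : Set ℝ))) := by
    apply continuousOn_tsum (u := fun i => q^(i+1))
    · intro i
      exact ((continuous_apply i).mul continuous_const).continuousOn
    · exact hs
    · intro i ε hε
      have := hε i (Set.mem_univ i)
      simp only [Set.mem_insert_iff, Set.mem_singleton_iff] at this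
      rcases this with h | h <;> rw [h]
      · simp; positivity
      · simp [abs_of_pos h0]
  have hE : E q = (fun ε : ℕ → ℝ => ∑' i, ε i * q^(i+1)) ''
      (Set.pi Set.univ (fun _ : ℕ => ({0, 1} : Set ℝ))) := by
    ext x
    constructor
    · rintro ⟨ε, hε, rfl⟩
      exact ⟨ε, fun i _ => by simpa using hε i, rfl⟩
    · rintro ⟨ε, hε, rfl⟩
      exact ⟨ε, fun i => by simpa using hε i (Set.mem_univ i), rfl⟩
  rw [hE]
  exact (hK.image_of_continuousOn hf).isClosed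

/-- endpoints of the gaps belong to `E` -/
theorem G_ends (h0 : 0 < q) (h1 : q < 1/2) (m : ℕ) : ∀ ε : ℕ → ℝ, Bin ε →
    s q ε m + r q (m+1) ∈ E q ∧ s q ε m + q^(m+1) ∈ E q := by
  have hr : r q 1 = q*(q/(1-q)) := by unfold r; ring
  induction m with
  | zero =>
    intro ε _
    simp only [s, range_zero, sum_empty, zero_add, pow_one]
    constructor
    · have := E_cons h0 h1 (a := 0) (Or.inl rfl) (E_R h0 h1)
      rwa [zero_mul, zero_add, ← hr] at this
    · have := E_cons h0 h1 (a := 1) (Or.inr rfl) (E_zero (q := q))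
      rwa [one_mul, mul_zero, add_zero] at this
  | succ m ih =>
    intro ε hε
    obtain ⟨h2, h3⟩ := ih (fun i => ε (i+1)) (fun i => hε (i+1))
    rw [s_succ, r_succ]
    constructor
    · have := E_cons h0 h1 (hε 0) h2
      rwa [mul_add, ← add_assoc] at this
    · have := E_cons h0 h1 (hε 0) h3
      rwa [mul_add, ← add_assoc, show q*q^(m+1) = q^(m+1+1) by ring] at this

theorem s_sym (ε : ℕ → ℝ) (h1 : q < 1/2) (m : ℕ) :
    s q (fun i => 1 - ε i) m = q/(1-q) - r q m - s q ε m := by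
  have hne : 1 - q ≠ 0 := by intro h; linarith
  induction m with
  | zero => simp [s, r]
  | succ m ih =>
    have e : ∀ ε' : ℕ → ℝ, s q ε' (m+1) = s q ε' m + ε' m * q^(m+1) := by
      intro ε'; unfold s; rw [sum_range_succ]
    rw [e, e, ih]
    unfold r
    field_simp
    ring

theorem G_sym (h1 : q < 1/2) {x : ℝ} (m : ℕ) (hx : x ∈ G q (m+1)) : q/(1-q) - x ∈ G q (m+1) := by
  have hne : 1 - q ≠ 0 := by intro h; linarith
  obtain ⟨ε, hε, h2, h3⟩ := hx
  have hr : r q m = q^(m+1) + r q (m+1) := by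
    unfold r; field_simp; ring
  refine ⟨fun i => 1 - ε i, fun i => ?_, ?_, ?_⟩
  · rcases hε i with h | h
    · right; simp [h]
    · left; simp [h]
  · simp only [Nat.add_sub_cancel] at h2 h3 ⊢
    rw [s_sym ε h1, hr]; linarith
  · simp only [Nat.add_sub_cancel] at h2 h3 ⊢
    rw [s_sym ε h1, hr]; linarith

theorem G_one {x : ℝ} : x ∈ G q 1 ↔ r q 1 < x ∧ x < q := by
  constructor
  · rintro ⟨ε, _, h2, h3⟩
    simp only [s, Nat.sub_self, range_zero, sum_empty, zero_add, pow_one] at h2 h3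
    exact ⟨h2, h3⟩
  · rintro ⟨h2, h3⟩
    exact ⟨fun _ => 0, fun _ => Or.inl rfl, by simpa [s] using h2, by simpa [s] using h3⟩

theorem mem_Ehat {x : ℝ} : x ∈ Ehat q ↔ x ∈ E q ∨ ∃ k, x ∈ G q (2*k+1) := by
  unfold Ehat
  simp only [Set.mem_union, Set.mem_iUnion, Set.mem_ofPred_eq, exists_prop]
  constructor
  · rintro (h | ⟨m, ⟨k, rfl⟩, h⟩)
    · left; exact h
    · right; exact ⟨k, h⟩
  · rintro (h | ⟨k, h⟩)
    · left; exact h
    · right; exact ⟨_, ⟨k, rfl⟩, h⟩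

theorem mem_Ehat1 {x : ℝ} : x ∈ Ehat1 q ↔ x ∈ E q ∨ ∃ k, x ∈ G q (2*k+2) := by
  unfold Ehat1
  simp only [Set.mem_union, Set.mem_iUnion, Set.mem_ofPred_eq, exists_prop]
  constructor
  · rintro (h | ⟨m, ⟨⟨k, rfl⟩, h2⟩, h⟩)
    · left; exact h
    · right
      obtain ⟨l, rfl⟩ : ∃ l, k = l + 1 := ⟨k-1, by omega⟩
      refine ⟨l, ?_⟩
      rwa [show l + 1 + (l+1) = 2*l+2 by ring] at h
  · rintro (h | ⟨k, h⟩)
    · left; exact h
    · right; exact ⟨_, ⟨⟨k+1, by ring⟩, by omega⟩, h⟩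

theorem Ehat1_sub (h0 : 0 < q) (h1 : q < 1/2) {x : ℝ} (hx : x ∈ Ehat1 q) : 0 ≤ x ∧ x ≤ q/(1-q) := by
  rcases mem_Ehat1.1 hx with h | ⟨k, ε, hε, h2, h3⟩
  · exact E_sub h0 h1 h
  · have := G_ends h0 h1 (2*k+1) ε hε
    have a1 := E_sub h0 h1 this.1
    have a2 := E_sub h0 h1 this.2
    simp only [show 2*k+2-1 = 2*k+1 by omega] at h2 h3
    rw [show 2*k+1+1 = 2*k+2 by ring] at a1 a2
    constructor <;> linarith

theorem Ehat_sub (h0 : 0 < q) (h1 : q < 1/2) {x : ℝ} (hx : x ∈ Ehat q) : 0 ≤ x ∧ x ≤ q/(1-q) := by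
  rcases mem_Ehat.1 hx with h | ⟨k, ε, hε, h2, h3⟩
  · exact E_sub h0 h1 h
  · have := G_ends h0 h1 (2*k) ε hε
    have a1 := E_sub h0 h1 this.1
    have a2 := E_sub h0 h1 this.2
    simp only [show 2*k+1-1 = 2*k by omega] at h2 h3
    constructor <;> linarith

/-- one step down: `Ehat1` in terms of `Ehat` -/
theorem step1 (h0 : 0 < q) (h1 : q < 1/2) {x : ℝ} (hx : x ∈ Ehat1 q) :
    ∃ a y, (a = 0 ∨ a = 1) ∧ y ∈ Ehat q ∧ x = a*q + q*y := by
  rcases mem_Ehat1.1 hx with h | ⟨k, h⟩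
  · obtain ⟨a, y, ha, hy, h2⟩ := E_split h0 h1 h
    exact ⟨a, y, ha, mem_Ehat.2 (Or.inl hy), h2⟩
  · obtain ⟨a, y, ha, hy, h2⟩ := G_split h0 _ h
    exact ⟨a, y, ha, mem_Ehat.2 (Or.inr ⟨k, hy⟩), h2⟩

theorem step1' (h0 : 0 < q) (h1 : q < 1/2) {a y : ℝ} (ha : a = 0 ∨ a = 1) (hy : y ∈ Ehat q) :
    a*q + q*y ∈ Ehat1 q := by
  rcases mem_Ehat.1 hy with h | ⟨k, h⟩
  · exact mem_Ehat1.2 (Or.inl (E_cons h0 h1 ha h))
  · exact mem_Ehat1.2 (Or.inr ⟨k, G_cons h0 _ ha h⟩)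

theorem step0 (h0 : 0 < q) (h1 : q < 1/2) {x : ℝ} (hx : x ∈ Ehat q) :
    (r q 1 < x ∧ x < q) ∨ ∃ a y, (a = 0 ∨ a = 1) ∧ y ∈ Ehat1 q ∧ x = a*q + q*y := by
  rcases mem_Ehat.1 hx with h | ⟨k, h⟩
  · obtain ⟨a, y, ha, hy, h2⟩ := E_split h0 h1 h
    exact Or.inr ⟨a, y, ha, mem_Ehat1.2 (Or.inl hy), h2⟩
  · cases k with
    | zero => exact Or.inl (G_one.1 h)
    | succ k =>
      rw [show 2*(k+1)+1 = 2*k+1+2 by ring] at h
      obtain ⟨a, y, ha, hy, h2⟩ := G_split h0 _ h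
      exact Or.inr ⟨a, y, ha, mem_Ehat1.2 (Or.inr ⟨k, hy⟩), h2⟩

theorem step0' (h0 : 0 < q) (h1 : q < 1/2) {a y : ℝ} (ha : a = 0 ∨ a = 1) (hy : y ∈ Ehat1 q) :
    a*q + q*y ∈ Ehat q := by
  rcases mem_Ehat1.1 hy with h | ⟨k, h⟩
  · exact mem_Ehat.2 (Or.inl (E_cons h0 h1 ha h))
  · refine mem_Ehat.2 (Or.inr ⟨k+1, ?_⟩)
    rw [show 2*(k+1)+1 = 2*k+1+2 by ring]
    exact G_cons h0 _ ha h

theorem cvEhat (h0 : 0 < q) (h1 : q < 1/2) : CV q (q/(1-q)) (Ehat q) := by
  have hne : 1 - q ≠ 0 := by intro h; linarith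
  have hR : q/(1-q) = q + q*(q/(1-q)) := by field_simp; ring
  set R := q/(1-q) with hRdef
  have hRp : 0 < R := div_pos h0 (by linarith)
  have hR1 : R < 1 := by rw [hRdef, div_lt_one (by linarith)]; linarith
  have hqR : q < R := by
    have := mul_pos h0 hRp
    linarith
  have hr1 : r q 1 = q*R := by rw [hRdef]; unfold r; ring
  refine ⟨h0, h1, hR, mem_Ehat.2 (Or.inl E_zero), fun x hx => (Ehat_sub h0 h1 hx).1,
    fun x hx => (Ehat_sub h0 h1 hx).2, ?_, ?_, ?_, ?_, ?_⟩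
  · -- sym
    intro x hx
    rcases mem_Ehat.1 hx with h | ⟨k, h⟩
    · exact mem_Ehat.2 (Or.inl (E_sym h0 h1 h))
    · exact mem_Ehat.2 (Or.inr ⟨k, G_sym h1 _ h⟩)
  · -- s1
    intro y hy
    constructor
    · intro hx
      rcases step0 h0 h1 hx with ⟨h2, _⟩ | ⟨a, z, ha, hz, h2⟩
      · exfalso
        rw [hr1] at h2
        have : q*(q*y) < q*(q*1) := by
          apply mul_lt_mul_of_pos_left _ h0
          apply mul_lt_mul_of_pos_left hy h0
        nlinarith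
      · rcases ha with rfl | rfl
        · have h3 : z = q*y := by
            have : q*z = q*(q*y) := by linarith [h2, show q^2*y = q*(q*y) by ring]
            exact mul_left_cancel₀ h0.ne' this
          rw [h3] at hz
          obtain ⟨b, w, hb, hw, h4⟩ := step1 h0 h1 hz
          rcases hb with rfl | rfl
          · have h5 : w = y := by
              have : q*w = q*y := by linarith
              exact mul_left_cancel₀ h0.ne' this
            rwa [← h5]
          · exfalso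
            have := (Ehat_sub h0 h1 hw).1
            have h6 : q*y < q*1 := mul_lt_mul_of_pos_left hy h0
            nlinarith
        · exfalso
          have := (Ehat1_sub h0 h1 hz).1
          have h6 : q^2*y < q^2*1 := mul_lt_mul_of_pos_left hy (by positivity)
          nlinarith
    · intro hx
      have h2 := step1' h0 h1 (a := 0) (Or.inl rfl) hx
      have h3 := step0' h0 h1 (a := 0) (Or.inl rfl) h2
      rwa [show 0*q + q*(0*q+q*y) = q^2*y by ring] at h3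
  · -- s2
    intro y hy0 hyR
    have he1 : q*R = q^2 + q^2*R := by linear_combination q*hR
    have hyq : q^2*y ≤ q^2*R := mul_le_mul_of_nonneg_left hyR (by positivity)
    have hyq0 : 0 ≤ q^2*y := by positivity
    constructor
    · intro hx
      rcases step0 h0 h1 hx with ⟨h2, _⟩ | ⟨a, z, ha, hz, h2⟩
      · exfalso
        rw [hr1] at h2
        linarith
      · rcases ha with rfl | rfl
        · have h3 : z = q + q*y := by
            have : q*z = q*(q+q*y) := by linarith [h2, show q^2+q^2*y = q*(q+q*y) by ring]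
            exact mul_left_cancel₀ h0.ne' this
          rw [h3] at hz
          obtain ⟨b, w, hb, hw, h4⟩ := step1 h0 h1 hz
          rcases hb with rfl | rfl
          · exfalso
            have := (Ehat_sub h0 h1 hw).2
            have h6 : q*w ≤ q*R := mul_le_mul_of_nonneg_left this h0.le
            have h7 : q*R < q*1 := mul_lt_mul_of_pos_left hR1 h0
            have h8 : 0 ≤ q*y := by positivity
            linarith
          · have h5 : w = y := by
              have : q*w = q*y := by linarith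
              exact mul_left_cancel₀ h0.ne' this
            rwa [← h5]
        · exfalso
          have h5 := (Ehat1_sub h0 h1 hz).1
          have h6 : q*R < q*1 := mul_lt_mul_of_pos_left hR1 h0
          have h7 : 0 ≤ q*z := by positivity
          linarith
    · intro hx
      have h2 := step1' h0 h1 (a := 1) (Or.inr rfl) hx
      have h3 := step0' h0 h1 (a := 0) (Or.inl rfl) h2
      rwa [show 0*q + q*(1*q+q*y) = q^2+q^2*y by ring] at h3
  · -- mid
    intro x hx1 hx2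
    rcases hx1.eq_or_lt with h2 | h2
    · have := step0' h0 h1 (a := 0) (Or.inl rfl) (mem_Ehat1.2 (Or.inl (E_R h0 h1)))
      rwa [zero_mul, zero_add, ← hRdef, h2] at this
    · rcases hx2.eq_or_lt with h3 | h3
      · have := step0' h0 h1 (a := 1) (Or.inr rfl) (mem_Ehat1.2 (Or.inl (E_zero (q := q))))
        rw [one_mul, mul_zero, add_zero] at this
        rw [h3]; exact this
      · exact mem_Ehat.2 (Or.inr ⟨0, G_one.2 ⟨by rw [hr1]; exact h2, h3⟩⟩)
  · -- closed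
    rw [← isOpen_compl_iff, Metric.isOpen_iff]
    intro x hx
    have hxE : x ∉ E q := fun h => hx (mem_Ehat.2 (Or.inl h))
    have hop : IsOpen (E q)ᶜ := (E_closed h0 h1).isOpen_compl
    obtain ⟨δ, hδ, hb⟩ := Metric.isOpen_iff.1 hop x hxE
    refine ⟨δ, hδ, fun y hy hyX => ?_⟩
    rcases mem_Ehat.1 hyX with h | ⟨k, ε, hε, h2, h3⟩
    · exact hb hy h
    · simp only [Nat.add_sub_cancel] at h2 h3
      have he := G_ends h0 h1 (2*k) ε hε
      rw [Metric.mem_ball, Real.dist_eq, abs_lt] at hy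
      by_cases c1 : x ≤ s q ε (2*k) + r q (2*k+1)
      · refine hb ?_ he.1
        rw [Metric.mem_ball, Real.dist_eq, abs_lt]
        constructor <;> linarith
      · by_cases c2 : s q ε (2*k) + q^(2*k+1) ≤ x
        · refine hb ?_ he.2
          rw [Metric.mem_ball, Real.dist_eq, abs_lt]
          constructor <;> linarith
        · push Not at c1 c2
          exact hx (mem_Ehat.2 (Or.inr ⟨k, ε, hε, by simpa using c1, by simpa using c2⟩))

end

end Pool.R949.CD
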