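import Pool.Agent.R949.CD.Basic

namespace Pool.R949.CD
namespace CV

variable {q R : ℝ} {X : Set ℝ}

theorem halfmem (h : CV q R X) : R/2 ∈ X := by
  have := h.R2q; have := h.q0; have := h.q1; have := h.Rpos
  exact h.mid _ (by nlinarith) (by linarith)

theorem cd_basic (h : CV q R X) {α : ℝ} (hα : α ∈ CDs X) : 0 ≤ α ∧ α ∈ X ∧ α ≤ R/2 := by
  obtain ⟨h0, hc⟩ := mem_CDs.1 hα
  refine ⟨h0, ?_, ?_⟩
  · rcases hc 0 h.zero with h1 | h1
    · simpa using h1
    · have := h.sub0 _ h1
      have e : α = 0 := by linarith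
      rw [e]; exact h.zero
  · rcases hc _ h.halfmem with h1 | h1
    · have := h.subR _ h1
      linarith
    · have := h.sub0 _ h1
      linarith

theorem stepA (h : CV q R X) {α : ℝ} (hα : α ∈ CDs X) (h0 : 0 < α) (h1 : α ≤ q^2*R) :
    α ≤ q^2*R/2 := by
  by_contra hlt
  push Not at hlt
  have hq := h.q2pos
  have hR1 := h.R1
  have hq1 : q^2 < 1 := by nlinarith [h.q0, h.q1]
  have hRp := h.Rpos
  have hc := (mem_CDs.1 hα).2
  have he1 := h.e1
  have hfree : ∀ x, q^2*R - α < x → x < min (q^2 - α) α → x ∉ X := by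
    intro x hx1 hx2 hx
    have hx3 := lt_of_lt_of_le hx2 (min_le_left _ _)
    have hx4 := lt_of_lt_of_le hx2 (min_le_right _ _)
    rcases hc x hx with h2 | h2
    · exact h.gap _ (by linarith) (by linarith) h2
    · have := h.sub0 _ h2
      linarith
  have hG : q^2*R < q^2 := by nlinarith
  rcases le_total (q^2 - α) α with h2 | h2
  · rw [min_eq_left h2] at hfree
    rcases h.free_len2 (by linarith) (by linarith) (by linarith) hfree with ⟨h3, h4⟩ | ⟨h3, h4⟩
    · linarith
    · have h5 : q^2*(1-R) ≤ q^2*(q^2*(1-R)) := by linarith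
      have h6 : q^2*(q^2*(1-R)) < 1*(q^2*(1-R)) := by
        apply mul_lt_mul_of_pos_right hq1
        apply mul_pos hq; linarith
      linarith
  · rw [min_eq_right h2] at hfree
    refine hfree (q^2*(R/2)) (by linarith) (by linarith) ?_
    rw [h.s1 _ (by linarith)]
    exact h.halfmem

theorem stepA2 (h : CV q R X) {α : ℝ} (hα : α ∈ CDs X) (h1 : α ≤ q^2*R/2) :
    α/q^2 ∈ CDs X := by
  have hq := h.q2pos
  have hqn := h.qne
  have hR1 := h.R1
  obtain ⟨h0, hc⟩ := mem_CDs.1 hα
  rw [mem_CDs]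
  refine ⟨by positivity, ?_⟩
  have key : ∀ y ∈ X, q^2*y + α ≤ q^2*R → (y + α/q^2 ∈ X ∨ y - α/q^2 ∈ X) := by
    intro y hy hle
    have hyR := h.subR _ hy
    have e1 : q^2*(y + α/q^2) = q^2*y + α := by field_simp
    have e2 : q^2*(y - α/q^2) = q^2*y - α := by field_simp
    have h2 : α/q^2 ≥ 0 := by positivity
    rcases hc (q^2*y) ((h.s1 y (by linarith)).2 hy) with h3 | h3
    · left
      rw [← h.s1, e1]
      · exact h3
      · have : q^2*(y + α/q^2) ≤ q^2*R := by rw [e1]; exact hle
        have := le_of_mul_le_mul_left this hq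
        linarith
    · right
      rw [← h.s1, e2]
      · exact h3
      · linarith
  intro y hy
  by_cases hle : q^2*y + α ≤ q^2*R
  · exact key y hy hle
  · push Not at hle
    have h3 := key (R - y) (h.sym y hy) (by nlinarith)
    rcases h3 with h3 | h3
    · right
      have := h.sym _ h3
      rwa [show R - (R - y + α/q^2) = y - α/q^2 by ring] at this
    · left
      have := h.sym _ h3
      rwa [show R - (R - y - α/q^2) = y + α/q^2 by ring] at this

theorem descend_aux (h : CV q R X) (n : ℕ) : ∀ α ∈ CDs X, (q^2)^n*q^2 ≤ α →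
    ∃ m : ℕ, ∃ β ∈ CDs X, q^2 ≤ β ∧ α = (q^2)^m*β := by
  have hq := h.q2pos
  have hqn := h.qne
  induction n with
  | zero =>
    intro α hα h1
    exact ⟨0, α, hα, by simpa using h1, by simp⟩
  | succ n ih =>
    intro α hα h1
    by_cases h2 : q^2 ≤ α
    · exact ⟨0, α, hα, h2, by simp⟩
    · push Not at h2
      have h3 := h.cd_basic hα
      have h4 : α ≤ q^2*R := by
        by_contra h5
        push Not at h5
        exact h.gap α h5 h2 h3.2.1
      have hpos : 0 < α := lt_of_lt_of_le (by positivity) h1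
      have h6 := h.stepA2 hα (h.stepA hα hpos h4)
      obtain ⟨m, β, hβ, h7, h8⟩ := ih _ h6 (by
        rw [le_div_iff₀ hq]
        calc (q^2)^n*q^2*q^2 = (q^2)^(n+1)*q^2 := by ring
          _ ≤ α := h1)
      refine ⟨m+1, β, hβ, h7, ?_⟩
      have : α = q^2*(α/q^2) := by field_simp
      rw [this, h8]; ring

theorem descend (h : CV q R X) {α : ℝ} (hα : α ∈ CDs X) (h0 : 0 < α) :
    ∃ m : ℕ, ∃ β ∈ CDs X, q^2 ≤ β ∧ α = (q^2)^m*β := by
  have hq := h.q2pos
  have hq1 : q^2 < 1 := by nlinarith [h.q0, h.q1]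
  obtain ⟨n, hn⟩ := exists_pow_lt_of_lt_one (div_pos h0 hq) hq1
  apply h.descend_aux n α hα
  rw [lt_div_iff₀ hq] at hn
  exact hn.le

theorem ascend (h : CV q R X) (hR2 : R ≤ 1/2) {β : ℝ} (hβ : β ∈ CDs X) : q^2*β ∈ CDs X := by
  have hq := h.q2pos
  have hqn := h.qne
  have hR1 := h.R1
  have hb := h.cd_basic hβ
  have hc := (mem_CDs.1 hβ).2
  have he1 := h.e1
  have he2 := h.e2
  rw [mem_CDs]
  refine ⟨mul_nonneg hq.le hb.1, ?_⟩
  have low : ∀ x ∈ X, x ≤ q → x + q^2*β ∈ X ∨ x - q^2*β ∈ X := by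
    intro x hx hxq
    by_cases c1 : x < q^2
    · have e : x = q^2*(x/q^2) := by field_simp
      rw [e, h.s1 _ (by rw [div_lt_one hq]; exact c1)] at hx
      rcases hc _ hx with h1 | h1
      · left
        have := (h.s1 _ (lt_of_le_of_lt (h.subR _ h1) hR1)).2 h1
        rwa [show q^2*(x/q^2 + β) = x + q^2*β by field_simp] at this
      · right
        have := (h.s1 _ (lt_of_le_of_lt (h.subR _ h1) hR1)).2 h1
        rwa [show q^2*(x/q^2 - β) = x - q^2*β by field_simp] at this
    · push Not at c1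
      by_cases c2 : x ≤ q*R
      · have e : x = q^2 + q^2*((x-q^2)/q^2) := by field_simp; ring
        rw [e, h.s2 _ (div_nonneg (by linarith) hq.le) (by rw [div_le_iff₀ hq]; linarith)] at hx
        rcases hc _ hx with h1 | h1
        · left
          have := (h.s2 _ (h.sub0 _ h1) (h.subR _ h1)).2 h1
          rwa [show q^2 + q^2*((x-q^2)/q^2 + β) = x + q^2*β by field_simp; ring] at this
        · right
          have := (h.s2 _ (h.sub0 _ h1) (h.subR _ h1)).2 h1
          rwa [show q^2 + q^2*((x-q^2)/q^2 - β) = x - q^2*β by field_simp; ring] at this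
      · push Not at c2
        have h5 : q^2*β ≤ q^2*(R/2) := mul_le_mul_of_nonneg_left hb.2.2 hq.le
        have h6 : 0 ≤ q^2*β := mul_nonneg hq.le hb.1
        have h7 : q^2*R ≤ q - q*R := by
          have := h.q0; have := h.q1
          nlinarith
        by_cases c3 : x + q^2*β ≤ q
        · left; exact h.mid _ (by linarith) c3
        · right; push Not at c3
          exact h.mid _ (by linarith) (by linarith)
  intro x hx
  by_cases c : x ≤ q
  · exact low x hx c
  · push Not at c
    rcases low (R-x) (h.sym x hx) (by nlinarith [h.R2q]) with h1 | h1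
    · right
      have := h.sym _ h1
      rwa [show R - (R - x + q^2*β) = x - q^2*β by ring] at this
    · left
      have := h.sym _ h1
      rwa [show R - (R - x - q^2*β) = x + q^2*β by ring] at this

/-- the translation property -/
def S0 (X : Set ℝ) (R γ : ℝ) : Prop := γ ∈ X ∧ ∀ y ∈ X, y + γ < R → y + γ ∈ X

theorem stepB (h : CV q R X) {α : ℝ} (hα : α ∈ CDs X) (h1 : q^2 ≤ α) (h2 : α ≤ q*R) :
    S0 X R ((α - q^2)/q^2) := by
  have hq := h.q2pos
  have hqn := h.qne
  have hR1 := h.R1
  have he1 := h.e1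
  have hb := h.cd_basic hα
  have hc := (mem_CDs.1 hα).2
  have g0 : 0 ≤ (α - q^2)/q^2 := div_nonneg (by linarith) hq.le
  have g1 : (α - q^2)/q^2 ≤ R := by rw [div_le_iff₀ hq]; linarith
  have e : q^2 + q^2*((α-q^2)/q^2) = α := by field_simp; ring
  constructor
  · rw [← h.s2 _ g0 g1, e]
    exact hb.2.1
  · intro y hy hlt
    have hy0 := h.sub0 _ hy
    have hyR := h.subR _ hy
    have hyR' : q^2*y ≤ q^2*R := mul_le_mul_of_nonneg_left hyR hq.le
    have hx := (h.s1 y (by linarith)).2 hy
    rcases hc _ hx with h3 | h3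
    · rw [← h.s2 _ (by linarith) hlt.le]
      rwa [show q^2 + q^2*(y + (α-q^2)/q^2) = q^2*y + α by field_simp; ring]
    · have h4 := h.sub0 _ h3
      nlinarith

theorem S0_ge_q (h : CV q R X) {γ : ℝ} (hS : S0 X R γ) (h0 : 0 < γ) : q ≤ γ := by
  by_contra hlt
  push Not at hlt
  have hR := h.hR
  have hR1 := h.R1
  have hq0 := h.q0
  have hqR := h.qRle
  have hI : Itv X (q*R+γ) (min (q+γ) R) := by
    refine ⟨lt_min (by linarith) (by linarith), fun x h1 h2 => ?_⟩
    have h3 := lt_of_lt_of_le h2 (min_le_left _ _)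
    have h4 := lt_of_lt_of_le h2 (min_le_right _ _)
    have h5 := hS.2 (x - γ) (h.mid _ (by linarith) (by linarith)) (by linarith)
    rwa [sub_add_cancel] at h5
  have hb := h.itv_ltR hI
  have hb2 : q + γ < R := by
    rcases min_lt_iff.1 hb with h1 | h1
    · exact h1
    · exact absurd h1 (lt_irrefl _)
  rw [min_eq_left hb2.le] at hI
  rcases h.itv_len2 hI with ⟨h1, h2⟩ | h1
  · linarith
  · have hq1 : q^2 < 1 := by nlinarith [h.q1]
    have h2 : q^2*(q*(1-R)) < 1*(q*(1-R)) := by
      apply mul_lt_mul_of_pos_right hq1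
      apply mul_pos hq0; linarith
    linarith

theorem S0_step (h : CV q R X) {γ : ℝ} (hS : S0 X R γ) :
    γ = 0 ∨ γ = q ∨ ∃ δ, S0 X R δ ∧ γ = q + q^2 + q^2*δ := by
  have hR := h.hR
  have he1 := h.e1
  have he2 := h.e2
  have hR1 := h.R1
  have hq0 := h.q0
  have hq1 := h.q1
  have hqR := h.qRle
  have hq := h.q2pos
  have hqn := h.qne
  have g0 := h.sub0 _ hS.1
  have gR := h.subR _ hS.1
  rcases g0.eq_or_lt with h0 | h0
  · left; exact h0.symm
  right
  have h1 := h.S0_ge_q hS h0
  by_cases c1 : q + q^2 ≤ γ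
  · right
    have e : q + q^2 + q^2*((γ - q - q^2)/q^2) = γ := by field_simp; ring
    have d0 : 0 ≤ (γ - q - q^2)/q^2 := div_nonneg (by linarith) hq.le
    have dR : (γ - q - q^2)/q^2 ≤ R := by rw [div_le_iff₀ hq]; linarith
    refine ⟨(γ - q - q^2)/q^2, ⟨?_, ?_⟩, e.symm⟩
    · rw [← h.s4 _ d0, e]; exact hS.1
    · intro y hy hlt
      have hy0 := h.sub0 _ hy
      have hyR := h.subR _ hy
      have hx := (h.s1 y (by linarith)).2 hy
      have e2 : q + q^2 + q^2*(y + (γ - q - q^2)/q^2) = q^2*y + γ := by field_simp; ring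
      have h3 : q^2*(y + (γ - q - q^2)/q^2) < q^2*R := mul_lt_mul_of_pos_left hlt hq
      have h4 := hS.2 _ hx (by linarith)
      rw [← h.s4 _ (by linarith), e2]
      exact h4
  · push Not at c1
    left
    -- γ = q + q² δ
    by_contra hne
    have hlt : q < γ := lt_of_le_of_ne h1 (Ne.symm hne)
    have e : q + q^2*((γ - q)/q^2) = γ := by field_simp; ring
    have d0 : 0 < (γ - q)/q^2 := div_pos (by linarith) hq
    have d1 : (γ - q)/q^2 < 1 := by rw [div_lt_one hq]; linarith
    set δ := (γ-q)/q^2 with hδ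
    have hδX : δ ∈ X := by
      rw [← h.s3 _ d0.le d1, e]; exact hS.1
    have dR := h.subR _ hδX
    have key : ∀ z ∈ X, R < z + δ → z + δ < 1 → False := by
      intro z hz hz1 hz2
      have z0 := h.sub0 _ hz
      have hx := (h.s1 z (by linarith [h.subR _ hz])).2 hz
      have h3 : q^2*(z+δ) < q^2*1 := mul_lt_mul_of_pos_left hz2 hq
      have h3' : 0 < q^2*R := mul_pos hq h.Rpos
      have h4 := hS.2 _ hx (by rw [← e]; linarith)
      rw [← e, show q^2*z + (q + q^2*δ) = q + q^2*(z+δ) by ring, h.s3 _ (by linarith) hz2] at h4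
      have := h.subR _ h4
      linarith
    have hlen := h.free_len (a := R - δ) (b := min (1-δ) R) (by linarith) (min_le_right _ _)
      (lt_min (by linarith) (by linarith)) (by
        intro x hx1 hx2 hx
        have hx3 := lt_of_lt_of_le hx2 (min_le_left _ _)
        exact key x hx (by linarith) (by linarith))
    rcases le_total (1-δ) R with h5 | h5
    · rw [min_eq_left h5] at hlen
      have hq2 : q^2 < 1 := by nlinarith
      have h2 : q^2*(1-R) < 1*(1-R) := mul_lt_mul_of_pos_right hq2 (by linarith)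
      linarith
    · rcases h5.eq_or_lt with h6 | h6
      · rw [← h6, min_self] at hlen
        have hq2 : q^2 < 1 := by nlinarith
        have h2 : q^2*(1-R) < 1*(1-R) := mul_lt_mul_of_pos_right hq2 (by linarith)
        linarith
      · exact key R h.Rmem (by linarith) (by linarith)

theorem S0_aux (h : CV q R X) (n : ℕ) : ∀ γ, S0 X R γ →
    (∃ k : ℕ, γ = R - R*q^k) ∨ R - γ ≤ (q^2)^n := by
  have hq := h.q2pos
  have hR := h.hR
  have he2 := h.e2
  induction n with
  | zero =>
    intro γ hS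
    right
    have := h.sub0 _ hS.1
    have := h.R1
    rw [pow_zero]; linarith
  | succ n ih =>
    intro γ hS
    rcases h.S0_step hS with h0 | h0 | ⟨δ, hδ, h0⟩
    · left; exact ⟨0, by rw [h0]; ring⟩
    · left; exact ⟨1, by rw [h0]; linear_combination (-1)*hR⟩
    · rcases ih δ hδ with ⟨k, hk⟩ | h1
      · left
        refine ⟨k+2, ?_⟩
        rw [h0, hk]
        linear_combination (-1)*he2
      · right
        have e : R - γ = q^2*(R-δ) := by rw [h0]; linear_combination he2
        rw [e, pow_succ (q^2) n, mul_comm ((q^2)^n)]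
        exact mul_le_mul_of_nonneg_left h1 hq.le

theorem S0_class (h : CV q R X) {γ : ℝ} (hS : S0 X R γ) : γ = R ∨ ∃ k : ℕ, γ = R - R*q^k := by
  have hq := h.q2pos
  have hq1 : q^2 < 1 := by nlinarith [h.q0, h.q1]
  rcases (h.subR _ hS.1).eq_or_lt with h0 | h0
  · left; exact h0
  · right
    obtain ⟨n, hn⟩ := exists_pow_lt_of_lt_one (sub_pos.2 h0) hq1
    rcases h.S0_aux n γ hS with h1 | h1
    · exact h1
    · linarith

theorem S0_zero (h : CV q R X) : S0 X R 0 := ⟨h.zero, fun y hy _ => by simpa using hy⟩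
theorem S0_R (h : CV q R X) : S0 X R R := ⟨h.Rmem, fun y hy hlt => by
  have := h.sub0 _ hy; linarith⟩

theorem S0_q (h : CV q R X) : S0 X R q := by
  have hq := h.q2pos
  have hqn := h.qne
  have hR := h.hR
  have he1 := h.e1
  refine ⟨h.qmem, fun y hy hlt => ?_⟩
  have hy0 := h.sub0 _ hy
  by_cases c1 : y < q^2
  · have e : y = q^2*(y/q^2) := by field_simp
    have h1 : y/q^2 < 1 := by rw [div_lt_one hq]; exact c1
    rw [e, h.s1 _ h1] at hy
    have := (h.s3 _ (by positivity) h1).2 hy
    rwa [show q + q^2*(y/q^2) = y + q by field_simp; ring] at this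
  · push Not at c1
    have e : y = q^2 + q^2*((y-q^2)/q^2) := by field_simp; ring
    have h1 : 0 ≤ (y-q^2)/q^2 := div_nonneg (by linarith) hq.le
    rw [e, h.s2 _ h1 (by rw [div_le_iff₀ hq]; linarith)] at hy
    have := (h.s4 _ h1).2 hy
    rwa [show q + q^2 + q^2*((y-q^2)/q^2) = y + q by field_simp; ring] at this

theorem S0_up (h : CV q R X) {δ : ℝ} (hδ : S0 X R δ) : S0 X R (q + q^2 + q^2*δ) := by
  have hq := h.q2pos
  have hqn := h.qne
  have hR := h.hR
  have hR1 := h.R1
  have he2 := h.e2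
  have d0 := h.sub0 _ hδ.1
  refine ⟨(h.s4 _ d0).2 hδ.1, fun y hy hlt => ?_⟩
  have hd : 0 ≤ q^2*δ := mul_nonneg hq.le d0
  have hy0 := h.sub0 _ hy
  have c1 : y < q^2*R := by linarith
  have c2 : y/q^2 < R := by rw [div_lt_iff₀ hq]; linarith
  have e : y = q^2*(y/q^2) := by field_simp
  rw [e, h.s1 _ (by linarith)] at hy
  have h3 : y/q^2 + δ < R := by
    apply lt_of_mul_lt_mul_left _ hq.le
    rw [mul_add, ← e]
    linarith
  have h4 := hδ.2 _ hy h3
  have := (h.s4 _ (by positivity)).2 h4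
  rwa [show q + q^2 + q^2*(y/q^2 + δ) = y + (q + q^2 + q^2*δ) by field_simp; ring] at this

theorem S0_k (h : CV q R X) (k : ℕ) : S0 X R (R - R*q^k) := by
  have hR := h.hR
  have he2 := h.e2
  induction k using Nat.twoStepInduction with
  | zero => simpa using h.S0_zero
  | one =>
    have := h.S0_q
    rwa [show R - R*q^1 = q by linear_combination hR]
  | more k ih _ =>
    have := h.S0_up ih
    rwa [show R - R*q^(k+2) = q + q^2 + q^2*(R - R*q^k) by linear_combination he2]

end CV
end Pool.R949.CD
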