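import Pool.Agent.R949.CD.Steps

namespace Pool.R949.CD
namespace CV

variable {q R : ℝ} {X : Set ℝ}

/-- covering property: `(t,R) ⊆ X ∪ (t+X)` -/
def Tc (X : Set ℝ) (R t : ℝ) : Prop := 0 ≤ t ∧ t ≤ R ∧ ∀ x, t < x → x < R → x ∈ X ∨ x - t ∈ X

theorem Ulem (h : CV q R X) {w : ℝ} (hw0 : q^2*R < w) (hw1 : w < q^2 + q*R)
    (hc : ∀ u, 0 < u → u < w → u ∈ X ∨ w - u ∈ X) : False := by
  have hq := h.q2pos
  have hR1 := h.R1
  have hq0 := h.q0
  have hq1 : q^2 < 1 := by nlinarith [h.q0, h.q1]
  have hRp := h.Rpos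
  have hp : 0 < q^2*R := mul_pos hq hRp
  have hG : q^2*R < q^2 := by nlinarith
  by_cases c : w ≤ q^2
  · have hI : Itv X 0 (w - q^2*R) := by
      refine ⟨by linarith, fun x h1 h2 => ?_⟩
      rcases hc (w - x) (by linarith) (by linarith) with h3 | h3
      · exact absurd h3 (h.gap _ (by linarith) (by linarith))
      · rwa [sub_sub_cancel] at h3
    exact absurd (h.itv_pos hI) (lt_irrefl _)
  · push Not at c
    have hI : Itv X (w - q^2) (w - q^2*R) := by
      refine ⟨by linarith, fun x h1 h2 => ?_⟩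
      rcases hc (w - x) (by linarith) (by linarith) with h3 | h3
      · exact absurd h3 (h.gap _ (by linarith) (by linarith))
      · rwa [sub_sub_cancel] at h3
    rcases h.itv_len2 hI with ⟨h1, h2⟩ | h1
    · linarith
    · have h2 : q*(q*(q*(1-R))) < q^2*(1-R) := by
        have : 0 < q^2*(1-R) := mul_pos hq (by linarith)
        nlinarith [h.q1]
      nlinarith

/-- an interval of length `q²(1-R)` in `X` lies in the central component -/
theorem itv_big (h : CV q R X) {a b : ℝ} (hI : Itv X a b) (hl : b - a = q^2*(1-R)) :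
    q*R ≤ a ∧ b ≤ q := by
  rcases h.itv_len2 hI with h1 | h1
  · exact h1
  · exfalso
    have hq := h.q2pos
    have hR1 := h.R1
    have : 0 < q^2*(1-R) := mul_pos hq (by linarith)
    nlinarith [h.q1]

theorem stepC (h : CV q R X) {α : ℝ} (hα : α ∈ CDs X) (h1 : q*R < α) : 2*α ≤ q := by
  by_contra hlt
  push Not at hlt
  have hq := h.q2pos
  have hR := h.hR
  have he1 := h.e1
  have he2 := h.e2
  have hR1 := h.R1
  have hq0 := h.q0
  have hRp := h.Rpos
  have hR2q := h.R2q
  obtain ⟨ha0, haX, haR⟩ := h.cd_basic hα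
  have hc := (mem_CDs.1 hα).2
  have hI : Itv X (q*R+α) (2*α) := by
    refine ⟨by linarith, fun x hx1 hx2 => ?_⟩
    rcases hc (x-α) (h.mid _ (by linarith) (by linarith)) with h3 | h3
    · rwa [sub_add_cancel] at h3
    · have := h.sub0 _ h3
      linarith
  have ha : q < q*R + α := by
    by_contra hh
    push Not at hh
    have := h.no_cross_q hI hh
    linarith
  -- ω = R - 2α
  have hω : ∀ u, 0 < u → u < R - 2*α → u ∈ X ∨ (R - 2*α) - u ∈ X := by
    intro u hu0 hu1
    rcases hc (α+u) (h.mid _ (by linarith) (by linarith)) with h3 | h3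
    · right
      have := h.sym _ h3
      rwa [show R - (α + u + α) = R - 2*α - u by ring] at this
    · left
      rwa [add_sub_cancel_left] at h3
  have hω1 : R - 2*α ≤ q^2*R := by
    by_contra hh
    push Not at hh
    refine h.Ulem hh ?_ hω
    -- R - 2α < q² + q R
    by_contra h4
    push Not at h4
    nlinarith
  -- α ≥ (q+q²)/2
  have hf : ∀ x, q + q^2*R - α < x → x < q + q^2 - α → x ∉ X := by
    intro x hx1 hx2 hx
    rcases hc x hx with h3 | h3
    · exact h.gap2 _ (by linarith) (by linarith) h3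
    · have := h.sub0 _ h3
      linarith
  have hG : q^2*R < q^2 := by nlinarith
  have hlt2 : q + q^2 - α < q := by nlinarith
  rcases lt_or_ge (q*R) (q + q^2 - α) with c | c
  · -- meets the central component
    have : max (q + q^2*R - α) (q*R) < q + q^2 - α := max_lt (by linarith) c
    obtain ⟨x, hx1, hx2⟩ := exists_between this
    exact hf x (lt_of_le_of_lt (le_max_left _ _) hx1) hx2
      (h.mid x (le_trans (le_max_right _ _) hx1.le) (by linarith))
  · rcases h.free_len2 (by nlinarith) c (by linarith) hf with ⟨h3, h4⟩ | ⟨_, h3⟩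
    · linarith
    · have : 0 < q^2*(1-R) := mul_pos hq (by linarith)
      nlinarith [h.q1]

/-- β-lemma -/
theorem betalem (h : CV q R X) {β : ℝ} (hβ : β < q*R)
    (hc : ∀ u, β < u → u < q*R → u ∈ X ∨ q*R + β - u ∈ X) :
    q^2 ≤ β ∧ Tc X R ((β - q^2)/q^2) := by
  have hq := h.q2pos
  have hqn := h.qne
  have hR := h.hR
  have he1 := h.e1
  have hR1 := h.R1
  have hq0 := h.q0
  have hRp := h.Rpos
  have hp : 0 < q^2*R := mul_pos hq hRp
  have hG : q^2*R < q^2 := by nlinarith
  have h1 : q^2 ≤ β := by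
    by_contra hlt
    push Not at hlt
    rcases lt_or_ge β 0 with c | c
    · have hI : Itv X (q*R + max β (-(q*R))) (q*R) := by
        refine ⟨?_, fun x h1 h2 => ?_⟩
        · have : max β (-(q*R)) < 0 := max_lt c (by linarith)
          linarith
        · have h3 : β ≤ max β (-(q*R)) := le_max_left _ _
          rcases hc (q*R + β - x) (by linarith) (by linarith) with h4 | h4
          · have := h.sub0 _ h4
            have h5 : -(q*R) ≤ max β (-(q*R)) := le_max_right _ _
            linarith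
          · rwa [sub_sub_cancel] at h4
      have := h.no_cross_qR hI hI.1
      linarith
    · rcases le_or_gt (q^2*R) β with c2 | c2
      · have hI : Itv X (q*R + β - q^2) (q*R) := by
          refine ⟨by linarith, fun x h1 h2 => ?_⟩
          rcases hc (q*R + β - x) (by linarith) (by linarith) with h4 | h4
          · exact absurd h4 (h.gap _ (by linarith) (by linarith))
          · rwa [sub_sub_cancel] at h4
        have := h.no_cross_qR hI hI.1
        linarith
      · have hI : Itv X (q*R + β - q^2) (q*R + β - q^2*R) := by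
          refine ⟨by linarith, fun x h1 h2 => ?_⟩
          rcases hc (q*R + β - x) (by linarith) (by linarith) with h4 | h4
          · exact absurd h4 (h.gap _ (by linarith) (by linarith))
          · rwa [sub_sub_cancel] at h4
        have := h.itv_big hI (by ring)
        linarith
  have h2 : (β-q^2)/q^2 < R := by rw [div_lt_iff₀ hq]; linarith
  have e : β = q^2 + q^2*((β - q^2)/q^2) := by field_simp; ring
  have h0 : 0 ≤ (β-q^2)/q^2 := div_nonneg (by linarith) hq.le
  refine ⟨h1, h0, h2.le, fun x hx1 hx2 => ?_⟩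
  have h3 : q^2*((β-q^2)/q^2) < q^2*x := mul_lt_mul_of_pos_left hx1 hq
  have h4 : q^2*x < q^2*R := mul_lt_mul_of_pos_left hx2 hq
  rcases hc (q^2+q^2*x) (by linarith) (by linarith) with h5 | h5
  · left
    exact (h.s2 x (by linarith) hx2.le).1 h5
  · right
    have e2 : q*R + β - (q^2 + q^2*x) = q^2 + q^2*(R - (x - (β-q^2)/q^2)) := by
      linear_combination e + he1
    rw [e2, h.s2 _ (by linarith) (by linarith), h.sym_iff] at h5
    exact h5

/-- the necessary condition in the middle range -/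
theorem midnec (h : CV q R X) {α : ℝ} (hα : α ∈ CDs X) (h1 : q*(1-R) < 2*α) (h2 : α ≤ q*(1-R)) :
    q^2 ≤ q - 2*α ∧ Tc X R ((q - 2*α - q^2)/q^2) := by
  have hR := h.hR
  have hc := (mem_CDs.1 hα).2
  apply h.betalem (by linarith)
  intro u hu1 hu2
  rcases hc (u+α) (h.mid _ (by linarith) (by linarith)) with h3 | h3
  · right
    have := h.sym _ h3
    rwa [show R - (u + α + α) = q*R + (q - 2*α) - u by linear_combination hR] at this
  · left
    rwa [add_sub_cancel_right] at h3

theorem Tc_ne_zero (h : CV q R X) (hT : Tc X R 0) : False := by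
  obtain ⟨_, _, hc⟩ := hT
  have hq := h.q2pos
  have hR1 := h.R1
  have hG : q^2*R < q^2 := by nlinarith
  have hp : 0 < q^2*R := mul_pos hq h.Rpos
  have he2 := h.e2
  have := h.q0
  have := h.gap ((q^2*R+q^2)/2) (by linarith) (by linarith)
  rcases hc ((q^2*R+q^2)/2) (by linarith) (by linarith) with h1 | h1
  · exact this h1
  · rw [sub_zero] at h1; exact this h1

/-! ### The self-similarity of `Tc` when `R ≤ 1/2` -/

theorem Tc_low (h : CV q R X) {t : ℝ} (hT : Tc X R t) : q^2 ≤ t := by
  obtain ⟨h0, h1, hc⟩ := hT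
  have hq := h.q2pos
  have hR1 := h.R1
  have he1 := h.e1
  have he2 := h.e2
  have := h.q0
  have hG : q^2*R < q^2 := by nlinarith
  have hp : 0 < q^2*R := mul_pos hq h.Rpos
  by_contra hlt
  push Not at hlt
  rcases lt_or_ge t (q^2*R) with c | c
  · have hI : Itv X (q^2*R - t) (q^2 - t) := by
      refine ⟨by linarith, fun x h1 h2 => ?_⟩
      rcases hc (x+t) (by linarith) (by linarith) with h4 | h4
      · exact absurd h4 (h.gap _ (by linarith) (by linarith))
      · rwa [add_sub_cancel_right] at h4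
    have := h.itv_big hI (by ring)
    linarith
  · have hI : Itv X 0 (q^2 - t) := by
      refine ⟨by linarith, fun x h1 h2 => ?_⟩
      rcases hc (x+t) (by linarith) (by linarith) with h4 | h4
      · exact absurd h4 (h.gap _ (by linarith) (by linarith))
      · rwa [add_sub_cancel_right] at h4
    exact absurd (h.itv_pos hI) (lt_irrefl _)

/-- `f₁` -/
theorem Tc_f1 (h : CV q R X) (hR2 : R ≤ 1/2) {t : ℝ} (h0 : 0 ≤ t) (h1 : t ≤ R) :
    Tc X R (q^2 + q^2*t) ↔ Tc X R t := by
  have hq := h.q2pos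
  have hqn := h.qne
  have hR1 := h.R1
  have he1 := h.e1
  have he2 := h.e2
  have hq0 := h.q0
  have ht : q^2*t ≤ q^2*R := mul_le_mul_of_nonneg_left h1 hq.le
  have ht0 : 0 ≤ q^2*t := mul_nonneg hq.le h0
  have hqR : 2*(q*R) ≤ q := by nlinarith
  constructor
  · rintro ⟨_, _, hc⟩
    refine ⟨h0, h1, fun x hx1 hx2 => ?_⟩
    have h3 : q^2*t < q^2*x := mul_lt_mul_of_pos_left hx1 hq
    have h4 : q^2*x < q^2*R := mul_lt_mul_of_pos_left hx2 hq
    rcases hc (q^2+q^2*x) (by linarith) (by linarith) with h5 | h5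
    · left; exact (h.s2 x (by linarith) hx2.le).1 h5
    · right
      rw [show q^2 + q^2*x - (q^2+q^2*t) = q^2*(x-t) by ring, h.s1 _ (by linarith)] at h5
      exact h5
  · rintro ⟨_, _, hc⟩
    refine ⟨by linarith, by linarith, fun x hx1 hx2 => ?_⟩
    by_cases c1 : x < q*R
    · have e : x = q^2 + q^2*((x-q^2)/q^2) := by field_simp; ring
      have h3 : t < (x-q^2)/q^2 := by rw [lt_div_iff₀ hq]; linarith
      have h4 : (x-q^2)/q^2 < R := by rw [div_lt_iff₀ hq]; linarith
      rcases hc _ h3 h4 with h5 | h5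
      · left; rw [e]; exact (h.s2 _ (by linarith) h4.le).2 h5
      · right
        rw [show x - (q^2+q^2*t) = q^2*((x-q^2)/q^2 - t) by field_simp; ring, h.s1 _ (by linarith)]
        exact h5
    · push Not at c1
      by_cases c2 : x ≤ q
      · left; exact h.mid _ c1 c2
      · push Not at c2
        by_cases c3 : x ≤ q + (q^2+q^2*t)
        · right
          exact h.mid _ (by linarith) (by linarith)
        · push Not at c3
          have e : x = q + q^2 + q^2*((x-q-q^2)/q^2) := by field_simp; ring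
          have h3 : t < (x-q-q^2)/q^2 := by rw [lt_div_iff₀ hq]; linarith
          have h4 : (x-q-q^2)/q^2 < R := by rw [div_lt_iff₀ hq]; linarith
          rcases hc _ h3 h4 with h5 | h5
          · left; rw [e]; exact (h.s4 _ (by linarith)).2 h5
          · right
            rw [show x - (q^2+q^2*t) = q + q^2*((x-q-q^2)/q^2 - t) by field_simp; ring,
              h.s3 _ (by linarith) (by linarith)]
            exact h5

theorem Tc_I (h : CV q R X) (hR2 : R ≤ 1/2) {t : ℝ} (h0 : q*R ≤ t) (h1 : t ≤ q - q*R) : Tc X R t := by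
  have hq := h.q2pos
  have hR := h.hR
  have hq0 := h.q0
  have hRp := h.Rpos
  have hqR : 2*(q*R) ≤ q := by nlinarith
  have : 0 < q*R := mul_pos hq0 hRp
  refine ⟨by linarith, by linarith, fun x hx1 hx2 => ?_⟩
  by_cases c : x ≤ q
  · left; exact h.mid _ (by linarith) c
  · push Not at c
    right; exact h.mid _ (by linarith) (by linarith)

/-- `f₂` -/
theorem Tc_f2 (h : CV q R X) (hR2 : R ≤ 1/2) {t : ℝ} (h0 : 0 ≤ t) (h1 : t ≤ R) :
    Tc X R (q - q^2 - q^2*t) ↔ Tc X R t := by
  have hq := h.q2pos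
  have hqn := h.qne
  have hR1 := h.R1
  have he1 := h.e1
  have he2 := h.e2
  have hR := h.hR
  have hq0 := h.q0
  have ht : q^2*t ≤ q^2*R := mul_le_mul_of_nonneg_left h1 hq.le
  have ht0 : 0 ≤ q^2*t := mul_nonneg hq.le h0
  have hqR : 2*(q*R) ≤ q := by nlinarith
  have hRp := h.Rpos
  have hqp : 0 < q*R := mul_pos hq0 hRp
  have hpp : 0 < q^2*R := mul_pos hq hRp
  constructor
  · rintro ⟨_, _, hc⟩
    refine ⟨h0, h1, fun x hx1 hx2 => ?_⟩
    have h3 : q^2*t < q^2*x := mul_lt_mul_of_pos_left hx1 hq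
    have h4 : q^2*x < q^2*R := mul_lt_mul_of_pos_left hx2 hq
    rcases hc (q + q^2*(x-t)) (by linarith) (by linarith) with h5 | h5
    · right; exact (h.s3 _ (by linarith) (by linarith)).1 h5
    · left
      rw [show q + q^2*(x-t) - (q-q^2-q^2*t) = q^2 + q^2*x by ring, h.s2 _ (by linarith) hx2.le] at h5
      exact h5
  · rintro ⟨_, _, hc⟩
    refine ⟨by linarith, by linarith, fun x hx1 hx2 => ?_⟩
    by_cases c1 : x ≤ q
    · left; exact h.mid _ (by linarith) c1
    · push Not at c1
      by_cases c2 : q*R ≤ x - (q-q^2-q^2*t)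
      · right; exact h.mid _ c2 (by linarith)
      · push Not at c2
        have e : x = q + q^2*((x-q)/q^2) := by field_simp; ring
        have h3 : 0 < (x-q)/q^2 := div_pos (by linarith) hq
        have h4 : (x-q)/q^2 + t < R := by
          apply lt_of_mul_lt_mul_left _ hq.le
          rw [show q^2*((x-q)/q^2 + t) = x - q + q^2*t by field_simp]
          linarith
        rcases hc _ (by linarith : t < (x-q)/q^2 + t) h4 with h5 | h5
        · right
          rw [show x - (q-q^2-q^2*t) = q^2 + q^2*((x-q)/q^2 + t) by field_simp; ring]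
          exact (h.s2 _ (by linarith) h4.le).2 h5
        · left
          rw [add_sub_cancel_right] at h5
          rw [e]
          exact (h.s3 _ h3.le (by linarith)).2 h5

/-- `f₃` -/
theorem Tc_f3 (h : CV q R X) {t : ℝ} (h0 : 0 ≤ t) (h1 : t ≤ R) :
    Tc X R (q + q^2 + q^2*t) ↔ Tc X R t := by
  have hq := h.q2pos
  have hqn := h.qne
  have hR1 := h.R1
  have he1 := h.e1
  have he2 := h.e2
  have hR := h.hR
  have hq0 := h.q0
  have ht : q^2*t ≤ q^2*R := mul_le_mul_of_nonneg_left h1 hq.le
  have ht0 : 0 ≤ q^2*t := mul_nonneg hq.le h0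
  constructor
  · rintro ⟨_, _, hc⟩
    refine ⟨h0, h1, fun x hx1 hx2 => ?_⟩
    have h3 : q^2*t < q^2*x := mul_lt_mul_of_pos_left hx1 hq
    have h4 : q^2*x < q^2*R := mul_lt_mul_of_pos_left hx2 hq
    rcases hc (q + q^2 + q^2*x) (by linarith) (by linarith) with h5 | h5
    · left; exact (h.s4 _ (by linarith)).1 h5
    · right
      rw [show q + q^2 + q^2*x - (q+q^2+q^2*t) = q^2*(x-t) by ring, h.s1 _ (by linarith)] at h5
      exact h5
  · rintro ⟨_, _, hc⟩
    refine ⟨by linarith, by linarith, fun x hx1 hx2 => ?_⟩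
    have e : x = q + q^2 + q^2*((x-q-q^2)/q^2) := by field_simp; ring
    have h3 : t < (x-q-q^2)/q^2 := by rw [lt_div_iff₀ hq]; linarith
    have h4 : (x-q-q^2)/q^2 < R := by rw [div_lt_iff₀ hq]; linarith
    rcases hc _ h3 h4 with h5 | h5
    · left; rw [e]; exact (h.s4 _ (by linarith)).2 h5
    · right
      rw [show x - (q+q^2+q^2*t) = q^2*((x-q-q^2)/q^2 - t) by field_simp; ring, h.s1 _ (by linarith)]
      exact h5

theorem Tc_high (h : CV q R X) {t : ℝ} (hT : Tc X R t) (h1 : t < q + q^2) : t ≤ q - q^2 := by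
  obtain ⟨h0, _, hc⟩ := hT
  have hq := h.q2pos
  have hR1 := h.R1
  have he1 := h.e1
  have he2 := h.e2
  have := h.q0
  have hG : q^2*R < q^2 := by nlinarith
  have hp : 0 < q^2*R := mul_pos hq h.Rpos
  rcases lt_or_ge t (q + q^2*R) with c | c
  · have hI : Itv X (q + q^2*R - t) (q + q^2 - t) := by
      refine ⟨by linarith, fun x h1 h2 => ?_⟩
      rcases hc (x+t) (by linarith) (by linarith) with h4 | h4
      · exact absurd h4 (h.gap2 _ (by linarith) (by linarith))
      · rwa [add_sub_cancel_right] at h4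
    have := h.itv_big hI (by ring)
    linarith
  · have hI : Itv X 0 (q + q^2 - t) := by
      refine ⟨by linarith, fun x h1 h2 => ?_⟩
      rcases hc (x+t) (by linarith) (by linarith) with h4 | h4
      · exact absurd h4 (h.gap2 _ (by linarith) (by linarith))
      · rwa [add_sub_cancel_right] at h4
    exact absurd (h.itv_pos hI) (lt_irrefl _)

theorem Tc_R (h : CV q R X) : Tc X R R := ⟨h.Rpos.le, le_rfl, fun x h1 h2 => by linarith⟩

theorem Tc_cases (h : CV q R X) (hR2 : R ≤ 1/2) {t : ℝ} (hT : Tc X R t) :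
    (q*R ≤ t ∧ t ≤ q - q*R) ∨ ∃ s, Tc X R s ∧
      (t = q^2 + q^2*s ∨ t = q - q^2 - q^2*s ∨ t = q + q^2 + q^2*s) := by
  have hq := h.q2pos
  have hqn := h.qne
  have he1 := h.e1
  have he2 := h.e2
  have h1 := h.Tc_low hT
  have htR := hT.2.1
  by_cases c1 : t < q*R
  · right
    have e : q^2 + q^2*((t-q^2)/q^2) = t := by field_simp; ring
    have s0 : 0 ≤ (t-q^2)/q^2 := div_nonneg (by linarith) hq.le
    have s1 : (t-q^2)/q^2 ≤ R := by rw [div_le_iff₀ hq]; linarith
    refine ⟨_, (h.Tc_f1 hR2 s0 s1).1 (by rw [e]; exact hT), Or.inl e.symm⟩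
  · push Not at c1
    by_cases c2 : t ≤ q - q*R
    · left; exact ⟨c1, c2⟩
    · push Not at c2
      right
      by_cases c3 : t < q + q^2
      · have c4 := h.Tc_high hT c3
        have e : q - q^2 - q^2*((q-q^2-t)/q^2) = t := by field_simp; ring
        have s0 : 0 ≤ (q-q^2-t)/q^2 := div_nonneg (by linarith) hq.le
        have s1 : (q-q^2-t)/q^2 ≤ R := by rw [div_le_iff₀ hq]; linarith
        refine ⟨_, (h.Tc_f2 hR2 s0 s1).1 (by rw [e]; exact hT), Or.inr (Or.inl e.symm)⟩
      · push Not at c3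
        have e : q + q^2 + q^2*((t-q-q^2)/q^2) = t := by field_simp; ring
        have s0 : 0 ≤ (t-q-q^2)/q^2 := div_nonneg (by linarith) hq.le
        have s1 : (t-q-q^2)/q^2 ≤ R := by rw [div_le_iff₀ hq]; linarith
        refine ⟨_, (h.Tc_f3 s0 s1).1 (by rw [e]; exact hT), Or.inr (Or.inr e.symm)⟩

end CV
end Pool.R949.CD
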