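import Pool.Agent.R949.CD.Steps2

namespace Pool.R949.CD

/-- The self-similar set `T`: numbers in `[0,R]` with an infinite orbit under the three maps
`s ↦ q²+q²s`, `s ↦ q-q²-q²s`, `s ↦ q+q²+q²s`, where the interval `[qR, q-qR]` is always allowed. -/
def TS (q R : ℝ) : Set ℝ := {t | ∃ u : ℕ → ℝ, u 0 = t ∧ ∀ n, 0 ≤ u n ∧ u n ≤ R ∧
  ((q*R ≤ u n ∧ u n ≤ q - q*R) ∨ u n = q^2 + q^2*u (n+1) ∨ u n = q - q^2 - q^2*u (n+1) ∨
    u n = q + q^2 + q^2*u (n+1))}

namespace CV

variable {q R : ℝ} {X : Set ℝ}

theorem Tc_to_TS (h : CV q R X) (hR2 : R ≤ 1/2) {t : ℝ} (hT : Tc X R t) : t ∈ TS q R := by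
  have hn : ∀ s : {s // Tc X R s}, ∃ s' : {s // Tc X R s}, 
      ((q*R ≤ s.1 ∧ s.1 ≤ q - q*R) ∨ s.1 = q^2 + q^2*s'.1 ∨ s.1 = q - q^2 - q^2*s'.1 ∨
    s.1 = q + q^2 + q^2*s'.1) := by
    rintro ⟨s, hs⟩
    rcases h.Tc_cases hR2 hs with h1 | ⟨s', hs', h1⟩
    · exact ⟨⟨s, hs⟩, Or.inl h1⟩
    · exact ⟨⟨s', hs'⟩, Or.inr h1⟩
  choose f hf using hn
  refine ⟨fun n => (f^[n] ⟨t, hT⟩).1, rfl, fun n => ⟨(f^[n] ⟨t, hT⟩).2.1, (f^[n] ⟨t, hT⟩).2.2.1, ?_⟩⟩
  have := hf (f^[n] ⟨t, hT⟩)
  simp only [Function.iterate_succ', Function.comp_apply]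
  exact this

theorem TS_approx (h : CV q R X) (hR2 : R ≤ 1/2) (n : ℕ) : ∀ t ∈ TS q R,
    ∃ s, Tc X R s ∧ |t - s| ≤ (q^2)^n := by
  have hq := h.q2pos
  induction n with
  | zero =>
    rintro t ⟨u, rfl, hu⟩
    refine ⟨R, h.Tc_R, ?_⟩
    rw [pow_zero, abs_le]
    have := hu 0
    have := h.R1
    constructor <;> linarith
  | succ n ih =>
    rintro t ⟨u, rfl, hu⟩
    have h0 := hu 0
    have h1 : u 1 ∈ TS q R := ⟨fun n => u (n+1), rfl, fun n => hu (n+1)⟩
    obtain ⟨s, hs, hs2⟩ := ih _ h1
    have hle : ∀ x : ℝ, |x| = q^2*|u 1 - s| → |x| ≤ (q^2)^(n+1) := by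
      intro x hx
      rw [hx, pow_succ (q^2) n, mul_comm ((q^2)^n)]
      exact mul_le_mul_of_nonneg_left hs2 hq.le
    rcases h0.2.2 with h2 | h2 | h2 | h2
    · refine ⟨u 0, h.Tc_I hR2 h2.1 h2.2, ?_⟩
      rw [sub_self, abs_zero]; positivity
    · refine ⟨_, (h.Tc_f1 hR2 hs.1 hs.2.1).2 hs, hle _ ?_⟩
      rw [h2, show q^2+q^2*u (0+1) - (q^2+q^2*s) = q^2*(u 1 - s) by ring, abs_mul, abs_of_pos hq]
    · refine ⟨_, (h.Tc_f2 hR2 hs.1 hs.2.1).2 hs, hle _ ?_⟩
      rw [h2, show q-q^2-q^2*u (0+1) - (q-q^2-q^2*s) = -(q^2*(u 1 - s)) by ring, abs_neg, abs_mul,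
        abs_of_pos hq]
    · refine ⟨_, (h.Tc_f3 hs.1 hs.2.1).2 hs, hle _ ?_⟩
      rw [h2, show q+q^2+q^2*u (0+1) - (q+q^2+q^2*s) = q^2*(u 1 - s) by ring, abs_mul, abs_of_pos hq]

theorem TS_to_Tc (h : CV q R X) (hR2 : R ≤ 1/2) {t : ℝ} (ht : t ∈ TS q R) : Tc X R t := by
  have hq := h.q2pos
  have hq1 : q^2 < 1 := by nlinarith [h.q0, h.q1]
  have ha := fun n => h.TS_approx hR2 n t ht
  obtain ⟨u, hu0, hu⟩ := ht
  have h0 := hu 0
  rw [hu0] at h0
  refine ⟨h0.1, h0.2.1, fun x hx1 hx2 => ?_⟩
  by_cases hx : x ∈ X
  · left; exact hx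
  · right
    have : x - t ∈ closure X := by
      rw [Metric.mem_closure_iff]
      intro ε hε
      obtain ⟨n, hn⟩ := exists_pow_lt_of_lt_one (lt_min hε (sub_pos.2 hx1)) hq1
      obtain ⟨s, hs, hs2⟩ := ha n
      have h3 : (q^2)^n < ε := lt_of_lt_of_le hn (min_le_left _ _)
      have h4 : (q^2)^n < x - t := lt_of_lt_of_le hn (min_le_right _ _)
      have h5 := abs_le.1 hs2
      rcases hs.2.2 x (by linarith) hx2 with h6 | h6
      · exact absurd h6 hx
      · refine ⟨_, h6, ?_⟩
        rw [Real.dist_eq, show x - t - (x - s) = -(t - s) by ring, abs_neg]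
        linarith
    rwa [h.closed.closure_eq] at this

theorem TS_iff (h : CV q R X) (hR2 : R ≤ 1/2) {t : ℝ} : t ∈ TS q R ↔ Tc X R t :=
  ⟨h.TS_to_Tc hR2, h.Tc_to_TS hR2⟩

theorem itv_pow (h : CV q R X) (j : ℕ) : ∀ a b, Itv X a b → a ≤ q^(j+1) → b ≤ q^(j+1) := by
  have hq := h.q2pos
  have hqn := h.qne
  have hq0 := h.q0
  have hq1 := h.q1
  have he1 := h.e1
  have hRp := h.Rpos
  induction j using Nat.twoStepInduction with
  | zero =>
    intro a b hI ha
    simp only [zero_add, pow_one] at ha ⊢
    exact h.no_cross_q hI ha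
  | one =>
    intro a b hI ha
    simp only [Nat.reduceAdd] at ha ⊢
    by_contra hb
    push Not at hb
    have hp : 0 < q^2*R := mul_pos hq hRp
    have h1 : Itv X (q^2) (min b (q*R)) := by
      refine ⟨lt_min hb (by linarith), fun x hx1 hx2 => hI.2 x (by linarith) ?_⟩
      exact lt_of_lt_of_le hx2 (min_le_left _ _)
    have h2 := h.itv_pos (h.itv_scale2 h1 le_rfl (min_le_right _ _))
    simp at h2
  | more j ih _ =>
    intro a b hI ha
    have hj : q^(j+1) ≤ q := by
      calc q^(j+1) ≤ q^1 := pow_le_pow_of_le_one hq0.le (by linarith) (by omega)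
        _ = q := pow_one q
    have e : q^(j+2+1) = q^2*q^(j+1) := by ring
    have h3 : q^(j+2+1) ≤ q^2*q := by rw [e]; exact mul_le_mul_of_nonneg_left hj hq.le
    have h4 : q^2*q < q^2 := by nlinarith
    have hp : 0 < q^2*R := mul_pos hq hRp
    rcases h.itv_cases hI with h1 | ⟨h1, h2⟩ | ⟨h1, h2⟩ | h1
    · have h5 := ih _ _ (h.itv_scale1 hI (by nlinarith [h.R1])) (by
        rw [div_le_iff₀ hq]; linarith)
      rw [div_le_iff₀ hq] at h5
      linarith
    · linarith
    · linarith
    · nlinarith

/-- symmetry of the left part -/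
theorem symL (h : CV q R X) {y : ℝ} (hy : y ∈ X) (hle : y ≤ q*R) : q*R - y ∈ X := by
  have hq := h.q2pos
  have hqn := h.qne
  have he1 := h.e1
  have hR1 := h.R1
  have hy0 := h.sub0 _ hy
  by_cases c1 : y < q^2
  · have e : y = q^2*(y/q^2) := by field_simp
    have h1 : y/q^2 < 1 := by rw [div_lt_one hq]; exact c1
    have h2 := hy
    rw [e, h.s1 _ h1] at h2
    have := (h.s2 (R - y/q^2) (by linarith [h.subR _ h2]) (by linarith [h.sub0 _ h2])).2 (h.sym _ h2)
    rwa [show q^2 + q^2*(R - y/q^2) = q*R - y by rw [he1]; field_simp; ring] at this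
  · push Not at c1
    have e : y = q^2 + q^2*((y-q^2)/q^2) := by field_simp; ring
    have h1 : 0 ≤ (y-q^2)/q^2 := div_nonneg (by linarith) hq.le
    have h2 := hy
    rw [e, h.s2 _ h1 (by rw [div_le_iff₀ hq]; linarith)] at h2
    have := (h.s1 (R - (y-q^2)/q^2) (by linarith [h.sub0 _ h2])).2 (h.sym _ h2)
    rwa [show q^2*(R - (y-q^2)/q^2) = q*R - y by rw [he1]; field_simp; ring] at this

theorem pow_mem (h : CV q R X) (k : ℕ) : q^(k+1) ∈ X := by
  have hq1 : q < 1 := by linarith [h.q1]
  induction k using Nat.twoStepInduction with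
  | zero => simpa using h.qmem
  | one => simpa using h.q2mem
  | more k ih _ =>
    have hlt : q^(k+1) < 1 := pow_lt_one₀ h.q0.le hq1 (by omega)
    have := (h.s1 _ hlt).2 ih
    rwa [show q^2*q^(k+1) = q^(k+2+1) by ring] at this

theorem q3_pow (h : CV q R X) (k : ℕ) : q^(k+3) ≤ q^3 := 
  pow_le_pow_of_le_one h.q0.le (by linarith [h.q1]) (by omega)

theorem q4_pow (h : CV q R X) (k : ℕ) : q^(k+4) ≤ q^4 := 
  pow_le_pow_of_le_one h.q0.le (by linarith [h.q1]) (by omega)

/-- necessary form of elements `β ∈ [q², qR]` -/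
theorem low_class (h : CV q R X) {β : ℝ} (hβ : β ∈ CDs X) (h1 : q^2 ≤ β) (h2 : β ≤ q*R) :
    β = q*R ∨ ∃ k : ℕ, β = q*R - R*q^(k+2) := by
  have hq := h.q2pos
  have hqn := h.qne
  have he1 := h.e1
  rcases h.S0_class (h.stepB hβ h1 h2) with h3 | ⟨k, h3⟩
  · left
    rw [div_eq_iff hq.ne'] at h3
    linarith
  · right
    refine ⟨k, ?_⟩
    rw [div_eq_iff hq.ne'] at h3
    rw [pow_add]
    linear_combination h3 - he1

theorem big_q (h : CV q R X) (hR2 : 1/2 ≤ R) : 1/3 ≤ q := by
  have := h.hR; have := h.q0
  nlinarith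

/-- for `R ≥ 1/2` there is nothing in `[q², R/2]` -/
theorem top_empty (h : CV q R X) (hR2 : 1/2 ≤ R) {β : ℝ} (hβ : β ∈ CDs X) (h1 : q^2 ≤ β) : False := by
  have hq := h.q2pos
  have hqn := h.qne
  have he1 := h.e1
  have he2 := h.e2
  have hR := h.hR
  have hR1 := h.R1
  have hq0 := h.q0
  have hq1 := h.q1
  have hRp := h.Rpos
  have hq3 := h.big_q hR2
  have hc := (mem_CDs.1 hβ).2
  have hqR := h.qRle
  have hp : 0 < q^2*R := mul_pos hq hRp
  have hG : q^2*R < q^2 := by nlinarith
  have hlen : 0 < q^2*(1-R) := mul_pos hq (by linarith)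
  have hl0 : 0 < q*(1-R) := mul_pos hq0 (by linarith)
  have hq21 : q^2 < 1 := by nlinarith
  have hqRh : q*(1/2) ≤ q*R := mul_le_mul_of_nonneg_left hR2 hq0.le
  have hqqh : q*(1/3) ≤ q^2 := by
    rw [pow_two]; exact mul_le_mul_of_nonneg_left hq3 hq0.le
  have hqq2 : q^2 < q*(1/2) := by
    rw [pow_two]; exact mul_lt_mul_of_pos_left hq1 hq0
  have h2 : β ≤ q*R := by
    by_contra hlt
    push Not at hlt
    have := h.stepC hβ hlt
    linarith
  have h3 : q*(1-R) < 2*β := by linarith
  have h4 : q*(1-R) < β := by
    by_contra hle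
    push Not at hle
    obtain ⟨h5, h6⟩ := h.midnec hβ h3 hle
    have h7 : q - 2*β - q^2 = 0 := by linarith
    rw [h7, zero_div] at h6
    exact h.Tc_ne_zero h6
  -- second condition
  have hc2 : ∀ u, q*R - β ≤ u → u ≤ q - β → u ∈ X ∨ R - 2*β - u ∈ X := by
    intro u hu1 hu2
    rcases hc (u+β) (h.mid _ (by linarith) (by linarith)) with h5 | h5
    · right
      have := h.sym _ h5
      rwa [show R - (u + β + β) = R - 2*β - u by ring] at this
    · left; rwa [add_sub_cancel_right] at h5
  -- first condition: gap2
  have hc1 : ∀ x, q + q^2*R - β < x → x < q + q^2 - β → x < β → x ∉ X := by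
    intro x hx1 hx2 hx3 hx
    rcases hc x hx with h5 | h5
    · exact h.gap2 _ (by linarith) (by linarith) h5
    · have := h.sub0 _ h5
      linarith
  rcases h.low_class hβ h1 h2 with h5 | ⟨k, h5⟩
  · -- β = qR
    have hl : q*(1-R) ≤ q^2*R := by
      by_contra hh
      push Not at hh
      refine h.Ulem hh (by linarith) (fun u hu1 hu2 => ?_)
      rcases hc2 u (by linarith) (by linarith) with h6 | h6
      · left; exact h6
      · right
        rwa [show R - 2*β - u = q*(1-R) - u by rw [h5]; linear_combination hR] at h6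
    have hfree : ∀ y, q*R - q*(1-R) - q^2 < y → y < q*R - q*(1-R) - q^2*R → y ∉ X := by
      intro y hy1 hy2 hy
      have hy3 : q*R - y ∈ X := h.symL hy (by linarith)
      refine hc1 _ ?_ ?_ ?_ hy3
      · linarith
      · linarith
      · rw [h5]
        have : 0 < y := by linarith
        linarith
    rcases h.free_len2 (by linarith) (by linarith) (by linarith) hfree with ⟨h6, h7⟩ | ⟨_, h6⟩
    · linarith
    · have h7 : q^2*(q^2*(1-R)) < 1*(q^2*(1-R)) := mul_lt_mul_of_pos_right hq21 hlen
      linarith
  · -- β = qR - R q^(k+2)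
    obtain _ | k := k
    · -- β = q²
      simp only [zero_add] at h5
      have hb : β = q^2 := by rw [h5]; linear_combination he1
      have hI : Itv X (R - 2*β - q^2) (R - 2*β - q^2*R) := by
        refine ⟨by linarith, fun x hx1 hx2 => ?_⟩
        rcases hc2 (R - 2*β - x) (by linarith) (by linarith) with h6 | h6
        · exact absurd h6 (h.gap _ (by linarith) (by linarith))
        · rwa [sub_sub_cancel] at h6
      have h6 := (h.itv_big hI (by ring)).1
      rw [hb] at h6
      have hq13 : q = 1/3 := by
        apply le_antisymm _ hq3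
        have : q*q ≤ q*(1/3) := by
          rw [← pow_two]; linarith
        exact le_of_mul_le_mul_left this hq0
      have hR12 : R = 1/2 := by
        rw [hq13] at hR; linarith
      rw [hb, hq13, hR12] at h4
      norm_num at h4
    · -- j = k+3
      have ha3 : R*q^(k+3) ≤ R*q^3 := mul_le_mul_of_nonneg_left (h.q3_pow k) hRp.le
      have hapos : 0 < R*q^(k+3) := by positivity
      have e3 : q^(k+1+2) = q^(k+3) := by ring
      rw [e3] at h5
      set a := R*q^(k+3) with ha
      have hRq : R*(1-q) = q := by linear_combination hR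
      have haq : a < q^2*R := by
        have h7 : q^3 < q^2 := pow_lt_pow_right_of_lt_one₀ hq0 (by linarith) (by norm_num)
        have h8 : R*q^3 < R*q^2 := mul_lt_mul_of_pos_left h7 hRp
        linarith
      -- case a + ℓ > q²
      have hc5 : q - β ≤ q^2 := by
        by_contra hh
        push Not at hh
        have hI : Itv X (R - 2*β - q^2) (R - 2*β - q^2*R) := by
          refine ⟨by linarith, fun x hx1 hx2 => ?_⟩
          rcases hc2 (R - 2*β - x) (by linarith) (by linarith) with h6 | h6
          · exact absurd h6 (h.gap _ (by linarith) (by linarith))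
          · rwa [sub_sub_cancel] at h6
        have h6 := (h.itv_big hI (by ring)).1
        -- 2a + ℓ - q² ≥ qR
        have h7 : 2*q*R + q^2 - q - 2*(R*q^3) ≤ 0 := by
          linarith
        have h8 : 2*q*R + q^2 - q - 2*(R*q^3) = q*(2*q^2+3*q-1) := by
          linear_combination (2*q*(1+q))*hRq
        have h9 : 0 < q*(2*q^2+3*q-1) := mul_pos hq0 (by linarith)
        linarith
      have h1q : 0 < 1 - q := by linarith
      rcases le_or_gt (q^2*R) (q*(1-R)) with ci | cii
      · -- (i)
        have hI : Itv X a (R - 2*β - q^2*R) := by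
          refine ⟨by linarith, fun x hx1 hx2 => ?_⟩
          rcases hc2 (R - 2*β - x) (by linarith) (by linarith) with h6 | h6
          · exact absurd h6 (h.gap _ (by linarith) (by linarith))
          · rwa [sub_sub_cancel] at h6
        set P := q^(k+3) with hP
        have hPpos : 0 < P := by positivity
        have haP : a ≤ P := by
          rw [ha]
          have : R*P ≤ 1*P := mul_le_mul_of_nonneg_right hR1.le hPpos.le
          linarith
        have h6 := h.itv_pow (k+2) _ _ hI haP
        have h7 : (q + q^2 - 2*q*R + 2*(R*P)) * (1-q) ≤ P*(1-q) := by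
          apply mul_le_mul_of_nonneg_right _ h1q.le
          rw [← hP] at h6
          linarith
        have h8 : (q + q^2 - 2*q*R + 2*(R*P)) * (1-q) = q - q^3 - 2*q^2 + 2*q*P := by
          linear_combination (2*P - 2*q)*hRq
        have h9 : q^2*R*(1-q) ≤ q*(1-R)*(1-q) := mul_le_mul_of_nonneg_right ci h1q.le
        have h10 : q^2*R*(1-q) = q^3 := by linear_combination q^2*hRq
        have h11 : q*(1-R)*(1-q) = q - 2*q^2 := by linear_combination (-q)*hRq
        have h12 : q - 2*q^2 - q^3 ≤ P*(1-3*q) := by linarith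
        have h13 : 0 ≤ P*(1-3*q) := by linarith
        have h14 : q = 1/3 := by
          by_contra hne
          have : 1/3 < q := lt_of_le_of_ne hq3 (Ne.symm hne)
          have : P*(1-3*q) < 0 := mul_neg_of_pos_of_neg hPpos (by linarith)
          linarith
        rw [h14] at h12
        norm_num at h12
      · -- (ii)
        have h9 : q*(1-R)*(1-q) < q^2*R*(1-q) := mul_lt_mul_of_pos_right cii h1q
        have h10 : q^2*R*(1-q) = q^3 := by linear_combination q^2*hRq
        have h11 : q*(1-R)*(1-q) = q - 2*q^2 := by linear_combination (-q)*hRq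
        have h12 : 0 < q*(q^2+2*q-1) := by
          rw [show q*(q^2+2*q-1) = q^3 + 2*q^2 - q by ring]
          linarith
        have h13 : 0 < q^2+2*q-1 := (mul_pos_iff_of_pos_left hq0).1 h12
        rcases lt_or_ge (R - 2*β) (q^2) with cP | cQ
        · -- case P
          obtain _ | k := k
          · have h14 : (q - q*R + 2*(R*q^3))*(1-q) < q^2*(1-q) := by
              apply mul_lt_mul_of_pos_right _ h1q
              simp only [zero_add] at ha
              linarith
            have h15 : (q - q*R + 2*(R*q^3))*(1-q) = q*(1-q) - q^2 + 2*q^4 := by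
              linear_combination (2*q^3 - q)*hRq
            have h17 : q^2 < 1/4 := by
              clear * - hq0 hq1
              nlinarith
            have h16 : 0 < q*((1-2*q)*(1-q-q^2)) := by
              apply mul_pos hq0
              apply mul_pos (by linarith)
              linarith
            have h18 : q*((1-2*q)*(1-q-q^2)) = q*(1-q) - q^2 + 2*q^4 - q^2*(1-q) := by ring
            linarith
          · have hP4 := h.q4_pow k
            have e4 : q^(k+1+3) = q^(k+4) := by ring
            rw [e4] at ha
            set P := q^(k+4) with hP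
            have hPpos : 0 < P := by positivity
            have hfree : ∀ x, q + q^2*R - β < x → x < min β (q + q^2 - β) → x ∉ X := by
              intro x hx1 hx2
              exact hc1 x hx1 (lt_of_lt_of_le hx2 (min_le_right _ _)) (lt_of_lt_of_le hx2 (min_le_left _ _))
            have hne : q + q^2*R - β < min β (q+q^2-β) := lt_min (by linarith) (by linarith)
            rcases h.free_len2 (by linarith) (le_trans (min_le_left _ _) h2) hne hfree with ⟨h6, h7⟩ | ⟨_, h6⟩
            · rcases min_le_iff.1 h7 with h8 | h8 <;> linarith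
            · have h7 : q^2*(q^2*(1-R)) < 1*(q^2*(1-R)) := mul_lt_mul_of_pos_right hq21 hlen
              rcases le_total (q+q^2-β) β with h8 | h8
              · rw [min_eq_right h8] at h6
                linarith
              · rw [min_eq_left h8] at hfree
                have hpm : q*R - P ∈ X := by
                  have hm := h.symL (h.pow_mem (k+3)) (by
                    have : q^(k+3+1) = P := by rw [hP]
                    rw [this]
                    have : q^4 ≤ q^2 := pow_le_pow_of_le_one hq0.le (by linarith) (by norm_num)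
                    linarith)
                  exact hm
                refine hfree _ ?_ ?_ hpm
                · -- q + q²R - β < qR - P
                  have h14 : 0 < (2*q*R - q - q^2*R - q^4 - R*q^4)*(1-q) := by
                    have e : (2*q*R - q - q^2*R - q^4 - R*q^4)*(1-q) = q*((1-q)*(q^2+2*q-1)) := by
                      linear_combination (2*q - q^2 - q^4)*hRq
                    rw [e]
                    exact mul_pos hq0 (mul_pos h1q h13)
                  have h15 := (mul_pos_iff_of_pos_right h1q).1 h14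
                  have h16 : R*P ≤ R*q^4 := mul_le_mul_of_nonneg_left hP4 hRp.le
                  rw [h5, ha]
                  linarith
                · rw [h5, ha]
                  have : R*P < 1*P := mul_lt_mul_of_pos_right hR1 hPpos
                  linarith
        · -- case Q
          have hq41 : 0.41 < q := by
            clear * - hq0 hq1 h13
            nlinarith
          obtain _ | k := k
          · -- β = q²+q³
            simp only [zero_add] at ha
            have hb : β = q^2 + q^3 := by
              rw [h5, ha]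
              linear_combination (q+q^2)*hRq
            have hI : Itv X (2*β - q^3*(1-R)) (2*β) := by
              have : 0 < q^3*(1-R) := mul_pos (by positivity) (by linarith)
              refine ⟨by linarith, fun x hx1 hx2 => ?_⟩
              have hz : x - β ∈ X := by
                have e : x - β = q^2 + q^2*((x-β-q^2)/q^2) := by field_simp; ring
                have z3 : q*R*q^2 = q^3*R := by ring
                have z4 : q*q^2 = q^3 := by ring
                have z1 : q*R < (x-β-q^2)/q^2 := by
                  rw [lt_div_iff₀ hq]; linarith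
                have z2 : (x-β-q^2)/q^2 < q := by
                  rw [div_lt_iff₀ hq]; linarith
                have z0 : 0 < q*R := mul_pos hq0 hRp
                rw [e, h.s2 _ (by linarith) (by linarith [h.qltR])]
                exact h.mid _ z1.le z2.le
              rcases hc _ hz with h6 | h6
              · rwa [sub_add_cancel] at h6
              · have := h.sub0 _ h6
                linarith
            have h2b : q < 2*β := by
              rw [hb]
              clear * - hq41 hq0
              nlinarith
            have ha' : q < 2*β - q^3*(1-R) := by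
              by_contra hh
              push Not at hh
              have := h.no_cross_q hI hh
              linarith
            have hI2 := h.itv_sym hI
            have hI3 := h.itv_scale2 hI2 (by linarith) (by linarith)
            rcases h.itv_len2 hI3 with ⟨h6, h7⟩ | h6
            · rw [le_div_iff₀ hq] at h6
              rw [div_le_iff₀ hq] at h7
              have h14 : 2*β = q + q^3 := by
                apply le_antisymm
                · have : R - 2*β - q^2 ≥ q*R*q^2 := h6
                  have e : R - q^2 - q*R*q^2 = q + q^3 := by linear_combination (1+q^2)*(hR) + q*hR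
                  linarith
                · have e : R - q*q^2 + q^3*(1-R) - q^2 = q + q^3 := by
                    linear_combination (1+q^2)*(hR) + q*hR
                  linarith
              rw [hb] at h14
              have : q*(q^2+2*q-1) = 0 := by linear_combination h14
              linarith
            · have e : (R - (2*β - q^3*(1-R)) - q^2)/q^2 - (R - 2*β - q^2)/q^2 = q*(1-R) := by
                field_simp; ring
              rw [e] at h6
              have h17 : 0 < q*(1-R) := mul_pos hq0 (by linarith)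
              have h18 : q^2*(q*(1-R)) < 1*(q*(1-R)) := mul_lt_mul_of_pos_right hq21 h17
              linarith
          · have hP4 := h.q4_pow k
            have e4 : q^(k+1+3) = q^(k+4) := by ring
            rw [e4] at ha
            have h14 : q^2*(1-q) ≤ (q - q*R + 2*(R*q^4))*(1-q) := by
              apply mul_le_mul_of_nonneg_right _ h1q.le
              have : R*q^(k+4) ≤ R*q^4 := mul_le_mul_of_nonneg_left hP4 hRp.le
              linarith
            have h15 : (q - q*R + 2*(R*q^4))*(1-q) = q*(1-q) - q^2 + 2*q^5 := by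
              linear_combination (2*q^4 - q)*hRq
            have h16 : 1 - 3*q + q^2 + 2*q^4 < 0 := by
              have a1 : 0 ≤ (q-0.41)*(1/2-q) := mul_nonneg (by linarith) (by linarith)
              clear * - a1 hq0 hq1 hq41
              nlinarith [mul_nonneg a1 (sq_nonneg q), mul_nonneg a1 hq0.le]
            have h17 : q*(1 - 3*q + q^2 + 2*q^4) < 0 := mul_neg_of_pos_of_neg hq0 h16
            have h18 : q*(1 - 3*q + q^2 + 2*q^4) = q*(1-q) - q^2 + 2*q^5 - q^2*(1-q) := by ring
            linarith

end CV
end Pool.R949.CD
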