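import Pool.Agent.R949.CD.Steps3

namespace Pool.R949.CD
namespace CV

variable {q R : ℝ} {X : Set ℝ}

theorem zero_CDs (h : CV q R X) : (0:ℝ) ∈ CDs X := by
  rw [mem_CDs]
  exact ⟨le_rfl, fun x hx => Or.inl (by simpa using hx)⟩

/-- **Theorem A** -/
theorem main_big (h : CV q R X) (hR2 : 1/2 ≤ R) : CDs X = {0} := by
  ext α
  constructor
  · intro hα
    by_contra hne
    have h0 : 0 < α := lt_of_le_of_ne (h.cd_basic hα).1 (Ne.symm hne)
    obtain ⟨m, β, hβ, h1, _⟩ := h.descend hα h0
    exact h.top_empty hR2 hβ h1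
  · rintro rfl
    exact h.zero_CDs

/-- the fundamental piece -/
def FF (q R : ℝ) : Set ℝ := {β | ((q*R ≤ β ∧ 2*β ≤ q) ∨ ∃ j : ℕ, β = q*R - R*q^(j+2)) ∧
  (2*β ≤ q*(1-R) ∨ (q - 2*β - q^2)/q^2 ∈ TS q R)}

theorem F_nec (h : CV q R X) (hR2 : R ≤ 1/2) {β : ℝ} (hβ : β ∈ CDs X) (h1 : q^2 ≤ β) : β ∈ FF q R := by
  have hq := h.q2pos
  have hq0 := h.q0
  have hqR : q*R ≤ q*(1/2) := mul_le_mul_of_nonneg_left hR2 hq0.le
  have h2 : (q*R ≤ β ∧ 2*β ≤ q) ∨ ∃ j : ℕ, β = q*R - R*q^(j+2) := by
    rcases lt_or_ge (q*R) β with c | c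
    · left; exact ⟨c.le, h.stepC hβ c⟩
    · rcases h.low_class hβ h1 c with h3 | h3
      · left; rw [h3]; exact ⟨le_rfl, by linarith⟩
      · right; exact h3
  have h3 : 2*β ≤ q := by
    rcases h2 with h3 | ⟨j, h3⟩
    · exact h3.2
    · have : 0 < R*q^(j+2) := mul_pos h.Rpos (by positivity)
      linarith
  refine ⟨h2, ?_⟩
  by_cases c : 2*β ≤ q*(1-R)
  · left; exact c
  · right
    push Not at c
    rw [h.TS_iff hR2]
    exact (h.midnec hβ c (by linarith)).2

theorem midsuff (h : CV q R X) (hR2 : R ≤ 1/2) {β : ℝ} (hb0 : 0 ≤ β) (hb : 2*β ≤ q)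
    (hc : 2*β ≤ q*(1-R) ∨ Tc X R ((q - 2*β - q^2)/q^2)) :
    ∀ x, q*R ≤ x → x ≤ q → x + β ∈ X ∨ x - β ∈ X := by
  intro x hx1 hx2
  have hq := h.q2pos
  have hqn := h.qne
  have hR := h.hR
  have he1 := h.e1
  have hq0 := h.q0
  have hqR : q*R ≤ q*(1/2) := mul_le_mul_of_nonneg_left hR2 hq0.le
  by_cases c1 : x + β ≤ q
  · left; exact h.mid _ (by linarith) c1
  · by_cases c2 : q*R ≤ x - β
    · right; exact h.mid _ c2 (by linarith)
    · push Not at c1 c2
      rcases hc with hc | hc
      · linarith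
      · obtain ⟨t0, t1, hc⟩ := hc
        have t0' : 0 ≤ q - 2*β - q^2 := by
          rw [le_div_iff₀ hq] at t0; linarith
        have e : x - β = q^2 + q^2*((x-β-q^2)/q^2) := by field_simp; ring
        have h3 : (q - 2*β - q^2)/q^2 < (x-β-q^2)/q^2 := by
          apply div_lt_div_of_pos_right _ hq; linarith
        have h4 : (x-β-q^2)/q^2 < R := by
          rw [div_lt_iff₀ hq]; linarith
        rcases hc _ h3 h4 with h5 | h5
        · right; rw [e]; exact (h.s2 _ (by linarith) h4.le).2 h5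
        · left
          have h6 := (h.s2 _ (by linarith [h.subR _ h5]) (by linarith [h.sub0 _ h5])).2 (h.sym _ h5)
          have h7 := h.sym _ h6
          rwa [show R - (q^2 + q^2*(R - ((x-β-q^2)/q^2 - (q-2*β-q^2)/q^2))) = x + β by
            field_simp
            linear_combination (1+q)*hR] at h7

theorem F_suff (h : CV q R X) (hR2 : R ≤ 1/2) {β : ℝ} (hF : β ∈ FF q R) : β ∈ CDs X := by
  obtain ⟨hF1, hF2⟩ := hF
  rw [h.TS_iff hR2] at hF2
  have hq := h.q2pos
  have hqn := h.qne
  have hq0 := h.q0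
  have hq1 := h.q1
  have hR := h.hR
  have hR1 := h.R1
  have hRp := h.Rpos
  have he1 := h.e1
  have hqR : q*R ≤ q*(1/2) := mul_le_mul_of_nonneg_left hR2 hq0.le
  have hR2q := h.R2q
  have hqq : q^2*R < q^2 := by nlinarith
  have hp : 0 < q^2*R := mul_pos hq hRp
  have hp1 : 0 < q*R := mul_pos hq0 hRp
  have h2q2 : q*R ≤ 2*q^2 := by
    have := mul_le_mul_of_nonneg_left hR2q.le hq0.le
    linarith [this, show q*(2*q) = 2*q^2 by ring]
  have hq3 : q^2*R + q*R ≤ q := by
    have h1 : q ≤ 1/2 := hq1.le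
    nlinarith
  have hq4 : q^2*R ≤ q*(1/4) := by
    have : q^2 ≤ q*(1/2) := by rw [pow_two]; exact mul_le_mul_of_nonneg_left hq1.le hq0.le
    nlinarith
  have hbq : 2*β ≤ q := by
    rcases hF1 with h3 | ⟨j, h3⟩
    · exact h3.2
    · have : 0 < R*q^(j+2) := mul_pos hRp (by positivity)
      linarith
  have hb0 : q^2 ≤ β := by
    rcases hF1 with h3 | ⟨j, h3⟩
    · linarith
    · have h5 : q^(j+2) ≤ q^2 := pow_le_pow_of_le_one hq0.le (by linarith) (by omega)
      have h6 : R*q^(j+2) ≤ R*q^2 := mul_le_mul_of_nonneg_left h5 hRp.le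
      linarith
  have low : ∀ x ∈ X, x ≤ q → x + β ∈ X ∨ x - β ∈ X := by
    intro x hx hxq
    by_cases c0 : q*R ≤ x
    · exact h.midsuff hR2 (by linarith) hbq hF2 x c0 hxq
    · push Not at c0
      have hx0 := h.sub0 _ hx
      by_cases c1 : x < q^2
      · have e : x = q^2*(x/q^2) := by field_simp
        have hxx : x ≤ q^2*R := by
          by_contra hh
          push Not at hh
          exact h.gap _ hh c1 hx
        rcases hF1 with h3 | ⟨j, h3⟩
        · left; exact h.mid _ (by linarith) (by linarith)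
        · left
          by_cases c2 : q*R ≤ x + β
          · have : 0 < R*q^(j+2) := mul_pos hRp (by positivity)
            exact h.mid _ c2 (by linarith)
          · push Not at c2
            have hS := h.S0_k j
            rw [e, h.s1 _ (by rw [div_lt_one hq]; exact c1)] at hx
            have e5 : q^2 + q^2*(x/q^2 + (R - R*q^j)) = x + β := by
              rw [h3]; field_simp; linear_combination (-1)*he1
            have h4 : x/q^2 + (R - R*q^j) < R := by
              apply lt_of_mul_lt_mul_left _ hq.le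
              linarith
            have h6 := hS.2 _ hx h4
            have := (h.s2 _ (h.sub0 _ h6) h4.le).2 h6
            rwa [e5] at this
      · push Not at c1
        left
        exact h.mid _ (by linarith) (by linarith)
  rw [mem_CDs]
  refine ⟨by linarith, ?_⟩
  intro x hx
  by_cases c : x ≤ q
  · exact low x hx c
  · push Not at c
    rcases low (R-x) (h.sym x hx) (by linarith) with h1 | h1
    · right
      have := h.sym _ h1
      rwa [show R - (R - x + β) = x - β by ring] at this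
    · left
      have := h.sym _ h1
      rwa [show R - (R - x - β) = x + β by ring] at this

/-- **Theorem B** -/
theorem main_small (h : CV q R X) (hR2 : R ≤ 1/2) :
    CDs X = {0} ∪ {α | ∃ n : ℕ, ∃ β ∈ FF q R, α = q^(2*n)*β} := by
  ext α
  constructor
  · intro hα
    rcases (h.cd_basic hα).1.eq_or_lt with h0 | h0
    · left; exact h0.symm
    · right
      obtain ⟨m, β, hβ, h1, h2⟩ := h.descend hα h0
      exact ⟨m, β, h.F_nec hR2 hβ h1, by rw [h2, pow_mul]⟩
  · rintro (h0 | ⟨n, β, hβ, rfl⟩)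
    · rw [Set.mem_singleton_iff] at h0
      rw [h0]; exact h.zero_CDs
    · induction n with
      | zero => simpa using h.F_suff hR2 hβ
      | succ n ih =>
        have := h.ascend hR2 ih
        rwa [show q^2*(q^(2*n)*β) = q^(2*(n+1))*β by ring] at this

end CV
end Pool.R949.CD
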